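import Mathlib

/-!
The extremal number of a single `k`-graph and the existence of its Turán density.
-/

set_option autoImplicit false
set_option linter.unusedSectionVars false

open Finset

namespace Run7.h42.WO

/-- the extremal number -/
noncomputable def exn (k m : ℕ) (L : Finset (Finset (Fin m))) (n : ℕ) : ℕ :=
  sSup {t : ℕ | ∃ H : Finset (Finset (Fin n)), (∀ A ∈ H, A.card = k) ∧ H.card = t ∧
                ¬ ∃ f : Fin m ↪ Fin n, ∀ e ∈ L, e.map f ∈ H}

lemma card_le_choose {k n : ℕ} {H : Finset (Finset (Fin n))} (h : ∀ A ∈ H, A.card = k) :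
    H.card ≤ n.choose k := by
  have h1 : H ⊆ powersetCard k univ := fun A hA => mem_powersetCard.2 ⟨subset_univ _, h A hA⟩
  have h2 := Finset.card_le_card h1
  rwa [card_powersetCard, card_univ, Fintype.card_fin] at h2

lemma exn_bdd (k m : ℕ) (L : Finset (Finset (Fin m))) (n : ℕ) :
    BddAbove {t : ℕ | ∃ H : Finset (Finset (Fin n)), (∀ A ∈ H, A.card = k) ∧ H.card = t ∧
                ¬ ∃ f : Fin m ↪ Fin n, ∀ e ∈ L, e.map f ∈ H} := by
  refine ⟨n.choose k, ?_⟩
  rintro t ⟨H, h1, rfl, -⟩
  exact card_le_choose h1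

lemma le_exn {k m n : ℕ} {L : Finset (Finset (Fin m))} {H : Finset (Finset (Fin n))}
    (h1 : ∀ A ∈ H, A.card = k) (h2 : ¬ ∃ f : Fin m ↪ Fin n, ∀ e ∈ L, e.map f ∈ H) :
    H.card ≤ exn k m L n :=
  le_csSup (exn_bdd k m L n) ⟨H, h1, rfl, h2⟩

lemma exn_cases (k m : ℕ) (L : Finset (Finset (Fin m))) (n : ℕ) :
    exn k m L n = 0 ∨ ∃ H : Finset (Finset (Fin n)), (∀ A ∈ H, A.card = k) ∧
      H.card = exn k m L n ∧ ¬ ∃ f : Fin m ↪ Fin n, ∀ e ∈ L, e.map f ∈ H := by
  rcases Set.eq_empty_or_nonempty {t : ℕ | ∃ H : Finset (Finset (Fin n)),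
    (∀ A ∈ H, A.card = k) ∧ H.card = t ∧ ¬ ∃ f : Fin m ↪ Fin n, ∀ e ∈ L, e.map f ∈ H} with h | h
  · left
    unfold exn
    rw [h]
    exact csSup_empty
  · right
    exact Nat.sSup_mem h (exn_bdd k m L n)

/-- averaging over the deletion of one vertex -/
theorem exn_succ (n k m : ℕ) (L : Finset (Finset (Fin m))) :
    (n + 1 - k) * exn k m L (n + 1) ≤ (n + 1) * exn k m L n := by
  classical
  rcases exn_cases k m L (n + 1) with h0 | ⟨H, h1, h3, h2⟩
  · rw [h0]; simp
  · rw [← h3]
    have key : ∀ v : Fin (n + 1), (H.filter (fun A => v ∉ A)).card ≤ exn k m L n := by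
      intro v
      set H' : Finset (Finset (Fin n)) := univ.filter (fun B => B.map v.succAboveEmb ∈ H) with hH'
      have e1 : (H.filter (fun A => v ∉ A)).card = H'.card := by
        symm
        refine Finset.card_bij (fun B _ => B.map v.succAboveEmb) ?_ ?_ ?_
        · intro B hB
          rw [hH', mem_filter] at hB
          rw [mem_filter]
          refine ⟨hB.2, ?_⟩
          rw [mem_map]
          rintro ⟨x, -, hx⟩
          exact Fin.succAbove_ne v x hx
        · intro B _ B' _ hBB
          exact Finset.map_injective _ hBB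
        · intro A hA
          rw [mem_filter] at hA
          have hAm : (univ.filter (fun x => v.succAboveEmb x ∈ A)).map v.succAboveEmb = A := by
            ext a
            simp only [mem_map, mem_filter, mem_univ, true_and]
            constructor
            · rintro ⟨x, hx, rfl⟩; exact hx
            · intro ha
              have hav : a ≠ v := by rintro rfl; exact hA.2 ha
              obtain ⟨x, hx⟩ := Fin.exists_succAbove_eq hav
              exact ⟨x, by rw [Fin.succAboveEmb_apply, hx]; exact ha,
                by rw [Fin.succAboveEmb_apply, hx]⟩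
          refine ⟨univ.filter (fun x => v.succAboveEmb x ∈ A), ?_, hAm⟩
          rw [hH', mem_filter]
          exact ⟨mem_univ _, by rw [hAm]; exact hA.1⟩
      rw [e1]
      apply le_exn
      · intro B hB
        rw [hH', mem_filter] at hB
        have := h1 _ hB.2
        rwa [Finset.card_map] at this
      · rintro ⟨f, hf⟩
        apply h2
        refine ⟨f.trans v.succAboveEmb, fun e he => ?_⟩
        have := hf e he
        rw [hH', mem_filter] at this
        rw [← Finset.map_map]
        exact this.2
    have hs : ∑ v : Fin (n + 1), (H.filter (fun A => v ∉ A)).card = (n + 1 - k) * H.card := by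
      simp_rw [Finset.card_filter]
      rw [Finset.sum_comm]
      have : ∀ A ∈ H, ∑ v : Fin (n + 1), (if v ∉ A then 1 else 0) = n + 1 - k := by
        intro A hA
        rw [← Finset.card_filter]
        have : (univ.filter (fun v => v ∉ A)) = Aᶜ := by ext v; simp
        rw [this, Finset.card_compl, h1 A hA, Fintype.card_fin]
      rw [Finset.sum_congr rfl this, Finset.sum_const, smul_eq_mul, mul_comm]
    rw [← hs]
    calc ∑ v : Fin (n + 1), (H.filter (fun A => v ∉ A)).card ≤ ∑ v : Fin (n + 1), exn k m L n :=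
          Finset.sum_le_sum fun v _ => key v
      _ = (n + 1) * exn k m L n := by simp

theorem ratio_succ (n k m : ℕ) (L : Finset (Finset (Fin m))) (hk : k ≤ n) :
    (exn k m L (n + 1) : ℝ) / ((n + 1).choose k : ℝ) ≤ (exn k m L n : ℝ) / (n.choose k : ℝ) := by
  have h1 := exn_succ n k m L
  have h2 : (n + 1 - k) * (n + 1).choose k = (n + 1) * n.choose k := by
    have h3 := Nat.choose_mul_succ_eq n k
    rw [mul_comm, ← h3, mul_comm]
  have p1 : 0 < n.choose k := Nat.choose_pos hk
  have p2 : 0 < (n + 1).choose k := Nat.choose_pos (by omega)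
  have p3 : 0 < n + 1 - k := by omega
  rw [div_le_div_iff₀ (by exact_mod_cast p2) (by exact_mod_cast p1)]
  have h4 : exn k m L (n + 1) * n.choose k ≤ exn k m L n * (n + 1).choose k := by
    have : (n + 1 - k) * (exn k m L (n + 1) * n.choose k)
        ≤ (n + 1 - k) * (exn k m L n * (n + 1).choose k) := by
      calc (n + 1 - k) * (exn k m L (n + 1) * n.choose k)
          = ((n + 1 - k) * exn k m L (n + 1)) * n.choose k := by ring
        _ ≤ ((n + 1) * exn k m L n) * n.choose k := Nat.mul_le_mul_right _ h1
        _ = exn k m L n * ((n + 1) * n.choose k) := by ring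
        _ = exn k m L n * ((n + 1 - k) * (n + 1).choose k) := by rw [h2]
        _ = (n + 1 - k) * (exn k m L n * (n + 1).choose k) := by ring
    exact Nat.le_of_mul_le_mul_left this p3
  exact_mod_cast h4

/-- the limit defining the Turán density exists -/
theorem ratio_tendsto (k m : ℕ) (L : Finset (Finset (Fin m))) :
    ∃ d : ℝ, Filter.Tendsto (fun n : ℕ => (exn k m L n : ℝ) / (n.choose k : ℝ)) Filter.atTop
      (nhds d) := by
  have hanti : Antitone (fun n : ℕ => (exn k m L (n + k) : ℝ) / ((n + k).choose k : ℝ)) := by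
    refine antitone_nat_of_succ_le fun n => ?_
    have := ratio_succ (n + k) k m L (by omega)
    have e : n + 1 + k = n + k + 1 := by ring
    rw [e]; exact this
  have hb : BddBelow (Set.range (fun n : ℕ => (exn k m L (n + k) : ℝ) / ((n + k).choose k : ℝ))) := by
    refine ⟨0, ?_⟩
    rintro x ⟨n, rfl⟩
    positivity
  have h1 := tendsto_atTop_ciInf hanti hb
  exact ⟨_, (Filter.tendsto_add_atTop_iff_nat k).mp h1⟩

end Run7.h42.WO
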