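import Pool.Agent.Run7.h42.WO.Star

/-!
The Lagrangian argument: a dense `8`-graph contains a good subgraph.
-/

set_option autoImplicit false
set_option linter.unusedSectionVars false

open Finset

namespace Run7.h42.WO

variable {α : Type*} [DecidableEq α]

/-- vertices covered by edges -/
def supp (H : Finset (Finset α)) : Finset α := H.biUnion id

lemma mem_supp {H : Finset (Finset α)} {a : α} : a ∈ supp H ↔ ∃ e ∈ H, a ∈ e := by
  simp [supp]

/-- good `8`-graphs: they cover pairs and have long growth sequences in all links outside a vertex -/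
structure Good (H : Finset (Finset α)) : Prop where
  ne : H.Nonempty
  unif : ∀ e ∈ H, e.card = 8
  pair : ∀ u ∈ supp H, ∀ v ∈ supp H, u ≠ v → ∃ e ∈ H, u ∈ e ∧ v ∈ e
  grow : ∀ r ∈ supp H, ∀ u ∈ supp H, u ≠ r →
    GS ((H.filter (fun e => u ∈ e ∧ r ∉ e)).image (fun e => e.erase u)) 8

/-- the Lagrange polynomial -/
def lam (H : Finset (Finset α)) (x : α → ℝ) : ℝ := ∑ e ∈ H, ∏ a ∈ e, x a

/-- second derivative -/
def DD (H : Finset (Finset α)) (x : α → ℝ) (i j : α) : ℝ :=
  ∑ e ∈ H.filter (fun e => i ∈ e ∧ j ∈ e), ∏ a ∈ (e.erase i).erase j, x a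

/-- move weight `s` from `j` to `i` -/
def shift (x : α → ℝ) (i j : α) (s : ℝ) : α → ℝ :=
  fun a => if a = i then x a + s else if a = j then x a - s else x a

lemma shift_i (x : α → ℝ) (i j : α) (s : ℝ) : shift x i j s i = x i + s := by simp [shift]

lemma shift_j (x : α → ℝ) {i j : α} (h : i ≠ j) (s : ℝ) : shift x i j s j = x j - s := by
  simp [shift, h.symm]

lemma shift_o (x : α → ℝ) {i j a : α} (h1 : a ≠ i) (h2 : a ≠ j) (s : ℝ) :
    shift x i j s a = x a := by
  simp [shift, h1, h2]

lemma shift_edge (x : α → ℝ) {i j : α} (hij : i ≠ j) (s : ℝ) (e : Finset α) :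
    ∏ a ∈ e, shift x i j s a = ∏ a ∈ e, x a +
      s * ((if i ∈ e then ∏ a ∈ e.erase i, x a else 0) - (if j ∈ e then ∏ a ∈ e.erase j, x a else 0))
      - s ^ 2 * (if i ∈ e ∧ j ∈ e then ∏ a ∈ (e.erase i).erase j, x a else 0) := by
  by_cases hi : i ∈ e <;> by_cases hj : j ∈ e
  · have hj' : j ∈ e.erase i := mem_erase.2 ⟨hij.symm, hj⟩
    have hi' : i ∈ e.erase j := mem_erase.2 ⟨hij, hi⟩
    have e1 : ∏ a ∈ (e.erase i).erase j, shift x i j s a = ∏ a ∈ (e.erase i).erase j, x a := by
      refine Finset.prod_congr rfl fun a ha => ?_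
      simp only [mem_erase] at ha
      exact shift_o x ha.2.1 ha.1 s
    rw [← Finset.mul_prod_erase e _ hi, ← Finset.mul_prod_erase (e.erase i) _ hj', e1,
      ← Finset.mul_prod_erase e x hi, ← Finset.mul_prod_erase (e.erase i) x hj',
      ← Finset.mul_prod_erase (e.erase j) x hi', shift_i, shift_j x hij, if_pos hi, if_pos hj,
      if_pos ⟨hi, hj⟩, Finset.erase_right_comm (a := i) (b := j)]
    ring
  · have e1 : ∏ a ∈ e.erase i, shift x i j s a = ∏ a ∈ e.erase i, x a := by
      refine Finset.prod_congr rfl fun a ha => ?_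
      simp only [mem_erase] at ha
      refine shift_o x ha.1 ?_ s
      rintro rfl; exact hj ha.2
    rw [← Finset.mul_prod_erase e _ hi, e1, ← Finset.mul_prod_erase e x hi, shift_i, if_pos hi,
      if_neg hj, if_neg (fun h => hj h.2)]
    ring
  · have e1 : ∏ a ∈ e.erase j, shift x i j s a = ∏ a ∈ e.erase j, x a := by
      refine Finset.prod_congr rfl fun a ha => ?_
      simp only [mem_erase] at ha
      refine shift_o x ?_ ha.1 s
      rintro rfl; exact hi ha.2
    rw [← Finset.mul_prod_erase e _ hj, e1, ← Finset.mul_prod_erase e x hj, shift_j x hij,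
      if_pos hj, if_neg hi, if_neg (fun h => hi h.1)]
    ring
  · have e1 : ∏ a ∈ e, shift x i j s a = ∏ a ∈ e, x a := by
      refine Finset.prod_congr rfl fun a ha => ?_
      refine shift_o x ?_ ?_ s
      · rintro rfl; exact hi ha
      · rintro rfl; exact hj ha
    rw [e1, if_neg hi, if_neg hj, if_neg (fun h => hi h.1)]
    ring

lemma lam_shift (H : Finset (Finset α)) (x : α → ℝ) {i j : α} (hij : i ≠ j) (s : ℝ) :
    lam H (shift x i j s) = lam H x + s * (D H x i - D H x j) - s ^ 2 * DD H x i j := by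
  unfold lam D DD
  rw [Finset.sum_filter, Finset.sum_filter, Finset.sum_filter, ← Finset.sum_sub_distrib,
    Finset.mul_sum, Finset.mul_sum, ← Finset.sum_add_distrib, ← Finset.sum_sub_distrib]
  exact Finset.sum_congr rfl fun e _ => shift_edge x hij s e

lemma DD_nonneg (H : Finset (Finset α)) {x : α → ℝ} (hx : ∀ a, 0 ≤ x a) (i j : α) :
    0 ≤ DD H x i j :=
  Finset.sum_nonneg fun _ _ => Finset.prod_nonneg fun a _ => hx a

lemma euler [Fintype α] (H : Finset (Finset α)) (h8 : ∀ e ∈ H, e.card = 8) (x : α → ℝ) :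
    ∑ i, x i * D H x i = 8 * lam H x := by
  unfold D lam
  have e1 : ∀ i ∈ (univ : Finset α), x i * ∑ e ∈ H.filter (fun e => i ∈ e), ∏ a ∈ e.erase i, x a =
      ∑ e ∈ H, if i ∈ e then ∏ a ∈ e, x a else 0 := by
    intro i _
    rw [Finset.mul_sum, Finset.sum_filter]
    refine Finset.sum_congr rfl fun e _ => ?_
    by_cases h : i ∈ e
    · rw [if_pos h, if_pos h, Finset.mul_prod_erase _ _ h]
    · rw [if_neg h, if_neg h]
  rw [Finset.sum_congr rfl e1, Finset.sum_comm, Finset.mul_sum]
  refine Finset.sum_congr rfl fun e he => ?_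
  rw [Finset.sum_ite_mem, Finset.univ_inter, Finset.sum_const, h8 e he]
  simp

lemma lam_continuous [Fintype α] (H : Finset (Finset α)) : Continuous (lam H) := by
  unfold lam
  fun_prop

theorem lagr [Fintype α] (H₀ : Finset (Finset α)) (h8 : ∀ e ∈ H₀, e.card = 8) (x₀ : α → ℝ)
    (hx₀ : x₀ ∈ stdSimplex ℝ α) (h : (7 / 8) ^ 7 / 40320 < lam H₀ x₀) :
    ∃ H ⊆ H₀, Good H := by
  classical
  -- maximisers with minimal support
  have hmax : ∃ n : ℕ, ∃ x ∈ stdSimplex ℝ α, (∀ y ∈ stdSimplex ℝ α, lam H₀ y ≤ lam H₀ x) ∧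
      (univ.filter (fun a => x a ≠ 0)).card = n := by
    obtain ⟨x, hx, hm⟩ := (isCompact_stdSimplex ℝ α).exists_isMaxOn ⟨x₀, hx₀⟩
      (lam_continuous H₀).continuousOn
    exact ⟨_, x, hx, fun y hy => hm hy, rfl⟩
  obtain ⟨x, hxS, hxmax, hxc⟩ := Nat.find_spec hmax
  have hmin : ∀ y ∈ stdSimplex ℝ α, (∀ w ∈ stdSimplex ℝ α, lam H₀ w ≤ lam H₀ y) →
      (univ.filter (fun a => x a ≠ 0)).card ≤ (univ.filter (fun a => y a ≠ 0)).card := by
    intro y hy hy2
    rw [hxc]
    exact Nat.find_min' hmax ⟨y, hy, hy2, rfl⟩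
  have hx : ∀ a, 0 ≤ x a := hxS.1
  have hsum : ∑ a, x a = 1 := hxS.2
  -- shifts stay in the simplex
  have hshift : ∀ i j : α, i ≠ j → ∀ s : ℝ, 0 ≤ s → s ≤ x j → shift x i j s ∈ stdSimplex ℝ α := by
    intro i j hij s hs hs2
    refine ⟨fun a => ?_, ?_⟩
    · by_cases hai : a = i
      · rw [hai, shift_i]; have := hx i; linarith
      · by_cases haj : a = j
        · rw [haj, shift_j x hij]; linarith
        · rw [shift_o x hai haj]; exact hx a
    · have e1 : ∀ y : α → ℝ, ∑ a, y a = y i + (y j + ∑ a ∈ (univ.erase i).erase j, y a) := by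
        intro y
        rw [Finset.add_sum_erase _ y (mem_erase.2 ⟨hij.symm, mem_univ j⟩),
          Finset.add_sum_erase _ y (mem_univ i)]
      rw [e1, shift_i, shift_j x hij]
      have e2 : ∑ a ∈ (univ.erase i).erase j, shift x i j s a =
          ∑ a ∈ (univ.erase i).erase j, x a := by
        refine Finset.sum_congr rfl fun a ha => ?_
        simp only [mem_erase] at ha
        exact shift_o x ha.2.1 ha.1 s
      rw [e2]
      have := e1 x
      rw [hsum] at this
      linarith
  have hineq : ∀ i j : α, i ≠ j → ∀ s : ℝ, 0 ≤ s → s ≤ x j →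
      s * (D H₀ x i - D H₀ x j) - s ^ 2 * DD H₀ x i j ≤ 0 := by
    intro i j hij s hs hs2
    have := hxmax _ (hshift i j hij s hs hs2)
    rw [lam_shift H₀ x hij] at this
    linarith
  have hle : ∀ i j : α, i ≠ j → 0 < x j → D H₀ x i ≤ D H₀ x j := by
    intro i j hij hj
    by_contra hcon
    push Not at hcon
    have hDD := DD_nonneg H₀ hx i j
    set δ := D H₀ x i - D H₀ x j with hδ
    have hδ0 : 0 < δ := by rw [hδ]; linarith
    set s := min (x j) (δ / (2 * (DD H₀ x i j + 1))) with hs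
    have hs0 : 0 < s := lt_min hj (by positivity)
    have h1 := hineq i j hij s hs0.le (min_le_left _ _)
    have h2 : s * (2 * (DD H₀ x i j + 1)) ≤ δ := by
      have := min_le_right (x j) (δ / (2 * (DD H₀ x i j + 1)))
      rw [← hs, le_div_iff₀ (by positivity)] at this
      exact this
    rw [← hδ] at h1
    have h3 : s * (δ - s * DD H₀ x i j) ≤ 0 := by nlinarith
    have h4 : 0 < δ - s * DD H₀ x i j := by nlinarith
    have := mul_pos hs0 h4
    linarith
  have hpair : ∀ i j : α, i ≠ j → 0 < x i → 0 < x j → 0 < DD H₀ x i j := by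
    intro i j hij hi hj
    refine lt_of_le_of_ne (DD_nonneg H₀ hx i j) fun hzero => ?_
    have hDeq : D H₀ x i = D H₀ x j := le_antisymm (hle i j hij hj) (hle j i hij.symm hi)
    have hlam : lam H₀ (shift x i j (x j)) = lam H₀ x := by
      rw [lam_shift H₀ x hij, ← hzero, hDeq]; ring
    have h1 := hmin _ (hshift i j hij (x j) (hx j) le_rfl) (fun w hw => by
      rw [hlam]; exact hxmax w hw)
    have h2 : (univ.filter (fun a => shift x i j (x j) a ≠ 0)) ⊂ (univ.filter (fun a => x a ≠ 0)) := by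
      rw [Finset.ssubset_iff_of_subset]
      · refine ⟨j, ?_, ?_⟩
        · simp [hj.ne']
        · simp [shift_j x hij]
      · intro a ha
        simp only [mem_filter, mem_univ, true_and] at ha ⊢
        by_cases hai : a = i
        · rw [hai]; exact hi.ne'
        · by_cases haj : a = j
          · rw [haj]; exact hj.ne'
          · rwa [shift_o x hai haj] at ha
    have h3 := Finset.card_lt_card h2
    omega
  -- the value of the derivatives
  have hval : ∀ i : α, 0 < x i → (7 / 8) ^ 7 / 5040 < D H₀ x i := by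
    intro i hi
    have h1 := euler H₀ h8 x
    have h2 : ∑ j, x j * D H₀ x j = D H₀ x i := by
      have : ∀ j ∈ (univ : Finset α), x j * D H₀ x j = x j * D H₀ x i := by
        intro j _
        rcases eq_or_ne j i with rfl | hji
        · rfl
        rcases (hx j).eq_or_lt with h0 | h0
        · rw [← h0]; ring
        · rw [le_antisymm (hle j i hji hi) (hle i j hji.symm h0)]
      rw [Finset.sum_congr rfl this, ← Finset.sum_mul, hsum, one_mul]
    have h3 := hxmax x₀ hx₀
    rw [h2] at h1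
    rw [h1]
    linarith
  -- restriction to the support
  set U : Finset α := univ.filter (fun a => 0 < x a) with hU
  have hmemU : ∀ a, a ∈ U ↔ 0 < x a := by intro a; simp [hU]
  set H := H₀.filter (fun e => e ⊆ U) with hH
  have hsub : H ⊆ H₀ := Finset.filter_subset _ _
  have hsupp : ∀ a ∈ supp H, 0 < x a := by
    intro a ha
    obtain ⟨e, he, hae⟩ := mem_supp.1 ha
    rw [hH, mem_filter] at he
    exact (hmemU a).1 (he.2 hae)
  have hDH : ∀ i : α, 0 < x i → D H x i = D H₀ x i := by
    intro i hi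
    unfold D
    refine Finset.sum_subset (Finset.filter_subset_filter _ hsub) ?_
    intro e he he2
    rw [mem_filter] at he
    have : ¬ e ⊆ U := by
      intro h
      exact he2 (mem_filter.2 ⟨mem_filter.2 ⟨he.1, h⟩, he.2⟩)
    rw [Finset.not_subset] at this
    obtain ⟨b, hb, hbU⟩ := this
    rw [hmemU] at hbU
    have hb0 : x b = 0 := le_antisymm (not_lt.1 hbU) (hx b)
    refine Finset.prod_eq_zero (mem_erase.2 ⟨?_, hb⟩) hb0
    rintro rfl
    exact hbU hi
  have hcov : ∀ i j : α, i ≠ j → 0 < x i → 0 < x j → ∃ e ∈ H, i ∈ e ∧ j ∈ e := by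
    intro i j hij hi hj
    have h1 := hpair i j hij hi hj
    obtain ⟨e, he, hpos⟩ : ∃ e ∈ H₀.filter (fun e => i ∈ e ∧ j ∈ e),
        0 < ∏ a ∈ (e.erase i).erase j, x a := by
      by_contra hcon
      push Not at hcon
      have : DD H₀ x i j ≤ 0 := Finset.sum_nonpos hcon
      linarith
    rw [mem_filter] at he
    refine ⟨e, ?_, he.2⟩
    rw [hH, mem_filter]
    refine ⟨he.1, fun b hb => ?_⟩
    rw [hmemU]
    by_cases hbi : b = i
    · rw [hbi]; exact hi
    by_cases hbj : b = j
    · rw [hbj]; exact hj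
    refine lt_of_le_of_ne (hx b) fun h0 => ?_
    rw [Finset.prod_eq_zero (mem_erase.2 ⟨hbj, mem_erase.2 ⟨hbi, hb⟩⟩) h0.symm] at hpos
    exact lt_irrefl _ hpos
  refine ⟨H, hsub, ?_, fun e he => h8 e (hsub he), ?_, ?_⟩
  · -- nonempty
    have h1 : 0 < ∑ a, x a := by rw [hsum]; norm_num
    obtain ⟨i, -, hi⟩ := Finset.exists_lt_of_sum_lt (s := (univ : Finset α)) (f := fun _ => (0 : ℝ))
      (g := x) (by simpa using h1)
    have h2 := hval i hi
    rw [← hDH i hi] at h2
    by_contra hcon
    rw [Finset.not_nonempty_iff_eq_empty] at hcon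
    rw [hcon] at h2
    simp [D] at h2
    norm_num at h2
  · intro u hu v hv huv
    exact hcov u v huv (hsupp u hu) (hsupp v hv)
  · intro r hr u hu hur
    have hr' := hsupp r hr
    have hu' := hsupp u hu
    refine star H (fun e he => h8 e (hsub he)) x hx hsum r u hur hr' hu' ?_ ?_
    · rw [hDH r hr']; exact hval r hr'
    · rw [hDH u hu']; exact hval u hu'

end Run7.h42.WO
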