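import Pool.Agent.Run7.h42.WO.Ex

/-!
Blow-ups of a pattern without homomorphisms give lower bounds on the Turán density.
-/

set_option autoImplicit false
set_option linter.unusedSectionVars false

open Finset

namespace Run7.h42.WO

theorem blowup_card {β : Type*} [Fintype β] [DecidableEq β] {k m : ℕ} (P : Finset (Finset β))
    (hP : ∀ e ∈ P, e.card = k) (F : Finset (Finset (Fin m)))
    (hno : ∀ φ : Fin m → β, ¬ ∀ e ∈ F, e.image φ ∈ P) (q : ℕ) :
    P.card * q ^ k ≤ exn k m F (Fintype.card β * q) := by
  classical
  have hcard : Fintype.card (β × Fin q) = Fintype.card β * q := by simp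
  set ε : β × Fin q ≃ Fin (Fintype.card β * q) := Fintype.equivFinOfCardEq hcard with hε
  set pr : Fin (Fintype.card β * q) → β := fun x => (ε.symm x).1 with hpr
  set H : Finset (Finset (Fin (Fintype.card β * q))) :=
    (powersetCard k univ).filter (fun A => A.image pr ∈ P) with hH
  have h1 : H.card ≤ exn k m F (Fintype.card β * q) := by
    apply le_exn
    · intro A hA
      exact (mem_powersetCard.1 (mem_filter.1 hA).1).2
    · rintro ⟨f, hf⟩
      apply hno (pr ∘ f)
      intro e he
      have := (mem_filter.1 (hf e he)).2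
      rw [Finset.map_eq_image, Finset.image_image] at this
      exact this
  refine le_trans ?_ h1
  have h2 : H.card = ∑ E ∈ P, (H.filter (fun A => A.image pr = E)).card :=
    Finset.card_eq_sum_card_fiberwise fun A hA => (mem_filter.1 hA).2
  rw [h2, ← smul_eq_mul]
  refine Finset.card_nsmul_le_sum _ _ _ fun E hE => ?_
  set g : (↥E → Fin q) → Finset (Fin (Fintype.card β * q)) :=
    fun h => univ.image (fun v : ↥E => ε ((v : β), h v)) with hg
  have hginj : Function.Injective g := by
    intro h h' hh
    funext v
    have h3 : ε ((v : β), h v) ∈ g h := by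
      rw [hg]; exact mem_image_of_mem _ (mem_univ v)
    rw [hh, hg] at h3
    simp only [mem_image, mem_univ, true_and] at h3
    obtain ⟨w, hw⟩ := h3
    have h4 := ε.injective hw
    have h5 : (w : β) = v := congrArg Prod.fst h4
    have h6 : w = v := Subtype.ext h5
    subst h6
    exact (congrArg Prod.snd h4).symm
  have h3 : (univ : Finset (↥E → Fin q)).image g ⊆ H.filter (fun A => A.image pr = E) := by
    intro A hA
    simp only [mem_image, mem_univ, true_and] at hA
    obtain ⟨h, rfl⟩ := hA
    have e1 : (g h).image pr = E := by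
      rw [hg, Finset.image_image]
      ext b
      simp only [mem_image, mem_univ, true_and, Function.comp, hpr, Equiv.symm_apply_apply]
      constructor
      · rintro ⟨v, rfl⟩; exact v.2
      · intro hb; exact ⟨⟨b, hb⟩, rfl⟩
    have e2 : (g h).card = k := by
      rw [hg, Finset.card_image_of_injective]
      · rw [card_univ, Fintype.card_coe, hP E hE]
      · intro v w hvw
        have := congrArg Prod.fst (ε.injective hvw)
        exact Subtype.ext this
    rw [mem_filter, hH, mem_filter, mem_powersetCard]
    exact ⟨⟨⟨subset_univ _, e2⟩, by rw [e1]; exact hE⟩, e1⟩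
  have h4 := Finset.card_le_card h3
  rw [Finset.card_image_of_injective _ hginj, card_univ, Fintype.card_fun, Fintype.card_fin,
    Fintype.card_coe, hP E hE] at h4
  exact h4

theorem lower_density {β : Type*} [Fintype β] [DecidableEq β] [Nonempty β] {k m : ℕ}
    (P : Finset (Finset β)) (hP : ∀ e ∈ P, e.card = k) (F : Finset (Finset (Fin m)))
    (hno : ∀ φ : Fin m → β, ¬ ∀ e ∈ F, e.image φ ∈ P) {d : ℝ}
    (hd : Filter.Tendsto (fun n : ℕ => (exn k m F n : ℝ) / (n.choose k : ℝ)) Filter.atTop
      (nhds d)) :
    (k.factorial : ℝ) * P.card / (Fintype.card β : ℝ) ^ k ≤ d := by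
  have hN : 0 < Fintype.card β := Fintype.card_pos
  have hsub : Filter.Tendsto (fun q : ℕ => Fintype.card β * q) Filter.atTop Filter.atTop :=
    Filter.tendsto_atTop_mono (fun q => Nat.le_mul_of_pos_left q hN) Filter.tendsto_id
  refine ge_of_tendsto (hd.comp hsub) ?_
  rw [Filter.eventually_atTop]
  refine ⟨k + 1, fun q hq => ?_⟩
  have hq0 : 0 < q := by omega
  have hkn : k ≤ Fintype.card β * q := le_trans (by omega) (Nat.le_mul_of_pos_left q hN)
  have hc : (0 : ℝ) < ((Fintype.card β * q).choose k : ℝ) := by
    exact_mod_cast Nat.choose_pos hkn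
  simp only [Function.comp]
  rw [le_div_iff₀ hc]
  have h1 := blowup_card P hP F hno q
  have h1' : (P.card : ℝ) * (q : ℝ) ^ k ≤ (exn k m F (Fintype.card β * q) : ℝ) := by
    exact_mod_cast h1
  refine le_trans ?_ h1'
  have h2 : (k.factorial : ℝ) * ((Fintype.card β * q).choose k : ℝ) ≤
      ((Fintype.card β : ℝ) * q) ^ k := by
    have h3 := Nat.descFactorial_eq_factorial_mul_choose (Fintype.card β * q) k
    have h4 := Nat.descFactorial_le_pow (Fintype.card β * q) k
    rw [h3] at h4
    exact_mod_cast h4
  have hNk : (0 : ℝ) < (Fintype.card β : ℝ) ^ k := by positivity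
  rw [div_mul_eq_mul_div, div_le_iff₀ hNk]
  rw [mul_pow] at h2
  have h5 := mul_le_mul_of_nonneg_left h2 (Nat.cast_nonneg (α := ℝ) P.card)
  linarith

end Run7.h42.WO
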