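import Pool.Agent.Run7.h42.WO.Sparse

/-!
The target `8`-graph: all `8`-sets with exactly one vertex in `B` together with a locally sparse
`8`-graph outside `B`; its blow-up density exceeds `(7/8)^7`.
-/

set_option autoImplicit false
set_option linter.unusedSectionVars false

open Finset

namespace Run7.h42.WO

lemma choose_eight_lower {n : ℕ} (hn : 14 ≤ n) :
    (n : ℝ) ^ 8 / (256 * 40320) ≤ (n.choose 8 : ℝ) := by
  have h1 : (n + 1 - 8) ^ 8 ≤ n.descFactorial 8 := Nat.pow_sub_le_descFactorial n 8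
  rw [Nat.descFactorial_eq_factorial_mul_choose] at h1
  have h2 : ((n : ℝ) - 7) ^ 8 ≤ 40320 * (n.choose 8 : ℝ) := by
    have h3 : (((n + 1 - 8 : ℕ) : ℝ)) ^ 8 ≤ ((Nat.factorial 8 : ℕ) : ℝ) * (n.choose 8 : ℝ) := by
      exact_mod_cast h1
    have h4 : ((n + 1 - 8 : ℕ) : ℝ) = (n : ℝ) - 7 := by
      rw [Nat.cast_sub (by omega)]; push_cast; ring
    rw [h4] at h3
    have h5 : ((Nat.factorial 8 : ℕ) : ℝ) = 40320 := by norm_num [Nat.factorial]
    rw [h5] at h3
    exact h3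
  have h6 : (n : ℝ) / 2 ≤ (n : ℝ) - 7 := by
    have : (14 : ℝ) ≤ n := by exact_mod_cast hn
    linarith
  have h7 : ((n : ℝ) / 2) ^ 8 ≤ ((n : ℝ) - 7) ^ 8 := pow_le_pow_left₀ (by positivity) h6 8
  rw [div_le_iff₀ (by norm_num)]
  have h8 : ((n : ℝ) / 2) ^ 8 = (n : ℝ) ^ 8 / 256 := by rw [div_pow]; norm_num
  rw [h8] at h7
  linarith

lemma choose_seven_lower {n : ℕ} (hn : 6 ≤ n) :
    (n : ℝ) ^ 7 - 42 * (n : ℝ) ^ 6 ≤ 5040 * (n.choose 7 : ℝ) := by
  have h1 : (n + 1 - 7) ^ 7 ≤ n.descFactorial 7 := Nat.pow_sub_le_descFactorial n 7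
  rw [Nat.descFactorial_eq_factorial_mul_choose] at h1
  have h2 : ((n : ℝ) - 6) ^ 7 ≤ 5040 * (n.choose 7 : ℝ) := by
    have h3 : (((n + 1 - 7 : ℕ) : ℝ)) ^ 7 ≤ ((Nat.factorial 7 : ℕ) : ℝ) * (n.choose 7 : ℝ) := by
      exact_mod_cast h1
    have h4 : ((n + 1 - 7 : ℕ) : ℝ) = (n : ℝ) - 6 := by
      rw [Nat.cast_sub (by omega)]; push_cast; ring
    rw [h4] at h3
    have h5 : ((Nat.factorial 7 : ℕ) : ℝ) = 5040 := by norm_num [Nat.factorial]
    rw [h5] at h3
    exact h3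
  refine le_trans ?_ h2
  have hn0 : (0 : ℝ) < n := by
    have : 0 < n := by omega
    exact_mod_cast this
  have h6 : (-2 : ℝ) ≤ -(6 / (n : ℝ)) := by
    have h7 : (6 : ℝ) ≤ n := by exact_mod_cast hn
    have h8 : 6 / (n : ℝ) ≤ 1 := by rw [div_le_one hn0]; exact h7
    linarith
  have h9 := one_add_mul_le_pow h6 7
  have h10 := mul_le_mul_of_nonneg_left h9 (by positivity : 0 ≤ (n : ℝ) ^ 7)
  rw [← mul_pow] at h10
  have h11 : (n : ℝ) * (1 + -(6 / (n : ℝ))) = (n : ℝ) - 6 := by field_simp; ring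
  rw [h11] at h10
  refine le_trans (le_of_eq ?_) h10
  field_simp
  ring

lemma exists_sparse_aux (t q n : ℕ) (hnR : (n : ℝ) = 28672 * ((q : ℝ) + 1))
    (hq : 630 * ((∑ s ∈ range (t + 1), (28672 : ℝ) ^ s * (2 : ℝ) ^ (2 ^ t)) + 1) ≤ q) :
    ∃ T : Finset (Finset (Fin n)), (∀ e ∈ T, e.card = 8) ∧ (n : ℝ) ^ 7 < 840 * (T.card : ℝ) ∧
      ∀ W : Finset (Fin n), W.Nonempty → W.card ≤ t →
        (T.filter (fun e => e ⊆ W)).card < W.card := by
  obtain ⟨Dt, hDt⟩ : ∃ Dt : ℝ, Dt = ∑ s ∈ range (t + 1), (28672 : ℝ) ^ s * (2 : ℝ) ^ (2 ^ t) :=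
    ⟨_, rfl⟩
  rw [← hDt] at hq
  have hq0 : (0 : ℝ) < (q : ℝ) + 1 := by positivity
  have hn0 : (0 : ℝ) < n := by rw [hnR]; positivity
  have hn14 : 14 ≤ n := by
    have h1 : (14 : ℝ) ≤ n := by
      rw [hnR]
      have : (0 : ℝ) ≤ q := Nat.cast_nonneg q
      linarith
    exact_mod_cast h1
  have hc8 := choose_eight_lower hn14
  have h1 : (n : ℝ) ^ 7 / 360 ≤ (n.choose 8 : ℝ) / ((q : ℝ) + 1) := by
    rw [le_div_iff₀ hq0]
    refine le_trans (le_of_eq ?_) hc8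
    have : (q : ℝ) + 1 = n / 28672 := by rw [hnR]; field_simp
    rw [this]; ring
  have h2 : ∑ s ∈ range (t + 1), (n.choose s : ℝ) * (2 : ℝ) ^ (2 ^ t) / ((q : ℝ) + 1) ^ s ≤ Dt := by
    rw [hDt]
    refine Finset.sum_le_sum fun s _ => ?_
    have hqs : 0 < ((q : ℝ) + 1) ^ s := pow_pos hq0 s
    rw [div_le_iff₀ hqs]
    have h3 : (n.choose s : ℝ) ≤ (n : ℝ) ^ s := by
      have := Nat.choose_le_pow n s
      exact_mod_cast this
    have h4 : (0 : ℝ) ≤ (2 : ℝ) ^ (2 ^ t) := pow_nonneg (by norm_num) _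
    have h5 := mul_le_mul_of_nonneg_right h3 h4
    refine h5.trans (le_of_eq ?_)
    rw [hnR, mul_pow]
    ring
  have h3 : 630 * (Dt + 1) ≤ (n : ℝ) ^ 7 := by
    have e0 : (0 : ℝ) ≤ q := Nat.cast_nonneg q
    have e1 : (q : ℝ) ≤ n := by rw [hnR]; linarith
    have e2 : (1 : ℝ) ≤ n := by exact_mod_cast (by omega : 1 ≤ n)
    have e3 : (n : ℝ) ≤ (n : ℝ) ^ 7 := le_self_pow₀ e2 (by norm_num)
    linarith
  obtain ⟨T, hT1, hT2, hT3⟩ := deletion n t q ((n : ℝ) ^ 7 / 840 + 1) (by linarith)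
  exact ⟨T, hT1, by linarith, hT3⟩

theorem exists_sparse (t : ℕ) : ∃ a : ℕ, 0 < a ∧ ∃ T : Finset (Finset (Fin (7 * a))),
    (∀ e ∈ T, e.card = 8) ∧ ((7 * a : ℕ) : ℝ) ^ 7 < 840 * (T.card : ℝ) ∧
      ∀ W : Finset (Fin (7 * a)), W.Nonempty → W.card ≤ t →
        (T.filter (fun e => e ⊆ W)).card < W.card := by
  obtain ⟨q, hq⟩ := exists_nat_ge
    (630 * ((∑ s ∈ range (t + 1), (28672 : ℝ) ^ s * (2 : ℝ) ^ (2 ^ t)) + 1))
  refine ⟨4096 * (q + 1), by positivity, ?_⟩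
  refine exists_sparse_aux t q _ ?_ hq
  push_cast
  ring

/-- the `B`-side of the pattern -/
def Bside (a : ℕ) : Finset (Fin (7 * a) ⊕ Fin a) := (∅ : Finset (Fin (7 * a))).disjSum univ

theorem exists_pattern (t : ℕ) : ∃ a : ℕ, 0 < a ∧ ∃ P : Finset (Finset (Fin (7 * a) ⊕ Fin a)),
    (∀ e ∈ P, e.card = 8) ∧ (∀ e ∈ P, (e ∩ Bside a).card ≤ 1) ∧
    (∀ W : Finset (Fin (7 * a) ⊕ Fin a), W.Nonempty → W.card ≤ t →
      (P.filter (fun e => Disjoint e (Bside a) ∧ e ⊆ W)).card < W.card) ∧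
    (7 / 8 : ℝ) ^ 7 * (8 * (a : ℝ)) ^ 8 < 40320 * (P.card : ℝ) := by
  classical
  obtain ⟨a, ha, T, hT1, hT2, hT3⟩ := exists_sparse t
  refine ⟨a, ha, ?_⟩
  set P₁ : Finset (Finset (Fin (7 * a) ⊕ Fin a)) :=
    ((powersetCard 7 (univ : Finset (Fin (7 * a)))) ×ˢ (univ : Finset (Fin a))).image
      (fun p => p.1.disjSum {p.2}) with hP₁
  set P₂ : Finset (Finset (Fin (7 * a) ⊕ Fin a)) := T.image (fun e => e.disjSum ∅) with hP₂
  have hm₁ : ∀ e ∈ P₁, ∃ S : Finset (Fin (7 * a)), ∃ b : Fin a, S.card = 7 ∧ e = S.disjSum {b} := by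
    intro e he
    rw [hP₁, mem_image] at he
    obtain ⟨p, hp, rfl⟩ := he
    rw [mem_product, mem_powersetCard] at hp
    exact ⟨p.1, p.2, hp.1.2, rfl⟩
  have hm₂ : ∀ e ∈ P₂, ∃ S ∈ T, e = S.disjSum ∅ := by
    intro e he
    rw [hP₂, mem_image] at he
    obtain ⟨S, hS, rfl⟩ := he
    exact ⟨S, hS, rfl⟩
  have hB : ∀ y : Fin (7 * a) ⊕ Fin a, y ∈ Bside a ↔ ∃ b, y = Sum.inr b := by
    intro y
    unfold Bside
    rcases y with y | y <;> simp
  refine ⟨P₁ ∪ P₂, ?_, ?_, ?_, ?_⟩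
  · intro e he
    rcases mem_union.1 he with he | he
    · obtain ⟨S, b, hS, rfl⟩ := hm₁ e he
      rw [Finset.card_disjSum, hS, card_singleton]
    · obtain ⟨S, hS, rfl⟩ := hm₂ e he
      rw [Finset.card_disjSum, hT1 S hS, card_empty]
  · intro e he
    rw [Finset.card_le_one]
    intro y hy z hz
    rw [mem_inter, hB] at hy hz
    obtain ⟨hy1, b, rfl⟩ := hy
    obtain ⟨hz1, c, rfl⟩ := hz
    rcases mem_union.1 he with he | he
    · obtain ⟨S, d, hS, rfl⟩ := hm₁ e he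
      simp at hy1 hz1
      rw [hy1, hz1]
    · obtain ⟨S, hS, rfl⟩ := hm₂ e he
      simp at hy1
  · intro W hW hWt
    set W' : Finset (Fin (7 * a)) := univ.filter (fun y => Sum.inl y ∈ W) with hW'
    have h1 : (P₁ ∪ P₂).filter (fun e => Disjoint e (Bside a) ∧ e ⊆ W) ⊆
        (T.filter (fun e => e ⊆ W')).image (fun e => e.disjSum ∅) := by
      intro e he
      rw [mem_filter] at he
      obtain ⟨he1, he2, he3⟩ := he
      rcases mem_union.1 he1 with he1 | he1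
      · exfalso
        obtain ⟨S, d, hS, rfl⟩ := hm₁ e he1
        rw [Finset.disjoint_left] at he2
        exact he2 (a := Sum.inr d) (by simp) ((hB _).2 ⟨d, rfl⟩)
      · obtain ⟨S, hS, rfl⟩ := hm₂ e he1
        rw [mem_image]
        refine ⟨S, mem_filter.2 ⟨hS, fun y hy => ?_⟩, rfl⟩
        rw [hW', mem_filter]
        exact ⟨mem_univ _, he3 (by simpa using hy)⟩
    have h2 := (Finset.card_le_card h1).trans Finset.card_image_le
    have h3 : W'.card ≤ W.card := by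
      have : W'.image Sum.inl ⊆ W := by
        intro y hy
        rw [mem_image] at hy
        obtain ⟨z, hz, rfl⟩ := hy
        exact (mem_filter.1 hz).2
      have h4 := Finset.card_le_card this
      rwa [Finset.card_image_of_injective _ Sum.inl_injective] at h4
    rcases W'.eq_empty_or_nonempty with h4 | h4
    · have h5 : T.filter (fun e => e ⊆ W') = ∅ := by
        rw [Finset.filter_eq_empty_iff]
        intro e he hsub
        rw [h4, Finset.subset_empty] at hsub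
        have := hT1 e he
        rw [hsub] at this
        simp at this
      rw [h5, card_empty] at h2
      have := Finset.card_pos.2 hW
      omega
    · have h5 := hT3 W' h4 (h3.trans hWt)
      omega
  · have hdisj : Disjoint P₁ P₂ := by
      rw [Finset.disjoint_left]
      intro e he1 he2
      obtain ⟨S, d, hS, rfl⟩ := hm₁ e he1
      obtain ⟨S', hS', h⟩ := hm₂ _ he2
      have : Sum.inr d ∈ S'.disjSum (∅ : Finset (Fin a)) := by rw [← h]; simp
      simp at this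
    have hc₂ : P₂.card = T.card := by
      rw [hP₂, Finset.card_image_of_injective]
      intro S S' h
      have h' : S.disjSum (∅ : Finset (Fin a)) = S'.disjSum ∅ := h
      ext y
      have := Finset.ext_iff.1 h' (Sum.inl y)
      simpa using this
    have hc₁ : P₁.card = (7 * a).choose 7 * a := by
      rw [hP₁, Finset.card_image_of_injective]
      · rw [card_product, card_powersetCard, card_univ, card_univ, Fintype.card_fin,
          Fintype.card_fin]
      · rintro ⟨S, b⟩ ⟨S', b'⟩ h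
        have h' : S.disjSum ({b} : Finset (Fin a)) = S'.disjSum {b'} := h
        have e1 : S = S' := by
          ext y
          have := Finset.ext_iff.1 h' (Sum.inl y)
          simpa using this
        have e2 : b = b' := by
          have := Finset.ext_iff.1 h' (Sum.inr b)
          simpa using this
        rw [e1, e2]
    rw [Finset.card_union_of_disjoint hdisj, hc₁, hc₂]
    have h7 := choose_seven_lower (n := 7 * a) (by omega)
    push_cast at h7 hT2 ⊢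
    have ha0 : (0 : ℝ) < a := by exact_mod_cast ha
    have h8 := mul_le_mul_of_nonneg_left h7 (by positivity : (0 : ℝ) ≤ 8 * a)
    have e1 : (7 / 8 : ℝ) ^ 7 * (8 * (a : ℝ)) ^ 8 = 8 * a * (7 * (a : ℝ)) ^ 7 := by ring
    rw [e1]
    have e2 : (8 * (a : ℝ)) * ((7 * (a : ℝ)) ^ 7 - 42 * (7 * (a : ℝ)) ^ 6) =
        8 * a * (7 * (a : ℝ)) ^ 7 - 48 * (7 * (a : ℝ)) ^ 7 := by ring
    rw [e2] at h8
    linarith

end Run7.h42.WO
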