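import Pool.Agent.Run7.h42.WO.Lagr

/-!
The product of good `8`-graphs has no homomorphism to a locally sparse extension of the
`one vertex in B` pattern.
-/

set_option autoImplicit false
set_option linter.unusedSectionVars false

open Finset

namespace Run7.h42.WO

variable {γ : Type*} [DecidableEq γ] [Fintype γ] {ι : Type*} [DecidableEq ι] [Fintype ι]

/-- the categorical product of a family of `8`-graphs on `γ` -/
def prodG (H : ι → Finset (Finset γ)) : Finset (Finset (ι → γ)) :=
  (powersetCard 8 univ).filter (fun E : Finset (ι → γ) => ∀ i, E.image (fun v => v i) ∈ H i)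

lemma mem_prodG {H : ι → Finset (Finset γ)} {E : Finset (ι → γ)} :
    E ∈ prodG H ↔ E.card = 8 ∧ ∀ i, E.image (fun v => v i) ∈ H i := by
  simp [prodG, mem_powersetCard]

lemma enum_edge {e : Finset γ} (he : e.card = 8) {a b : γ} (ha : a ∈ e) (hb : b ∈ e)
    (hab : a ≠ b) : ∃ g : Fin 8 → γ, Function.Injective g ∧ univ.image g = e ∧ g 0 = a ∧ g 1 = b := by
  have h1 : Set.MapsTo (fun j : Fin 8 => if j = 0 then a else b) ({0, 1} : Set (Fin 8)) e := by
    intro j _
    by_cases hj : j = 0 <;> simp [hj, ha, hb]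
  have h2 : Set.InjOn (fun j : Fin 8 => if j = 0 then a else b) ({0, 1} : Set (Fin 8)) := by
    intro j hj l hl hjl
    simp only [Set.mem_insert_iff, Set.mem_singleton_iff] at hj hl
    rcases hj with rfl | rfl <;> rcases hl with rfl | rfl <;> simp_all
  obtain ⟨g, hg⟩ := Set.MapsTo.exists_equiv_extend_of_card_eq (α := Fin 8) (t := e)
    (by rw [he]; simp) h1 h2
  refine ⟨fun j => (g j : γ), ?_, ?_, ?_, ?_⟩
  · intro j l hjl
    exact g.injective (Subtype.ext hjl)
  · ext c
    simp only [mem_image, mem_univ, true_and]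
    constructor
    · rintro ⟨j, rfl⟩; exact (g j).2
    · intro hc
      obtain ⟨j, hj⟩ := g.surjective ⟨c, hc⟩
      exact ⟨j, by rw [hj]⟩
  · have := hg 0 (by simp)
    simpa using this
  · have := hg 1 (by simp)
    simpa using this

lemma build_edge [Nonempty ι] {H : ι → Finset (Finset γ)} (g : ι → Fin 8 → γ)
    (hinj : ∀ i, Function.Injective (g i)) (himg : ∀ i, univ.image (g i) ∈ H i) :
    univ.image (fun a : Fin 8 => fun i => g i a) ∈ prodG H := by
  rw [mem_prodG]
  constructor
  · rw [Finset.card_image_of_injective]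
    · simp
    · intro a b hab
      obtain ⟨i⟩ := (inferInstance : Nonempty ι)
      exact hinj i (congrFun hab i)
  · intro i
    rw [Finset.image_image]
    exact himg i

/-- the essential vertices of the product -/
def Om (H : ι → Finset (Finset γ)) : Finset (ι → γ) := univ.filter (fun v => ∀ i, v i ∈ supp (H i))

lemma mem_Om {H : ι → Finset (Finset γ)} {v : ι → γ} : v ∈ Om H ↔ ∀ i, v i ∈ supp (H i) := by
  simp [Om]

lemma pair_cover [Nonempty ι] {H : ι → Finset (Finset γ)} (hH : ∀ i, Good (H i)) {v w : ι → γ}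
    (hv : v ∈ Om H) (hw : w ∈ Om H) (hvw : ∀ i, v i ≠ w i) : ∃ E ∈ prodG H, v ∈ E ∧ w ∈ E := by
  rw [mem_Om] at hv hw
  have h1 : ∀ i, ∃ g : Fin 8 → γ, Function.Injective g ∧ univ.image g ∈ H i ∧ g 0 = v i ∧ g 1 = w i := by
    intro i
    obtain ⟨e, he, hve, hwe⟩ := (hH i).pair (v i) (hv i) (w i) (hw i) (hvw i)
    obtain ⟨g, h1, h2, h3, h4⟩ := enum_edge ((hH i).unif e he) hve hwe (hvw i)
    exact ⟨g, h1, by rw [h2]; exact he, h3, h4⟩
  choose g g1 g2 g3 g4 using h1
  refine ⟨_, build_edge g g1 g2, ?_, ?_⟩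
  · rw [mem_image]; exact ⟨0, mem_univ _, funext g3⟩
  · rw [mem_image]; exact ⟨1, mem_univ _, funext g4⟩

theorem nohom [Nonempty ι] {H : ι → Finset (Finset γ)} (hH : ∀ i, Good (H i)) {β : Type*}
    [DecidableEq β] (P : Finset (Finset β)) (B : Finset β) (hP8 : ∀ e ∈ P, e.card = 8)
    (hPB : ∀ e ∈ P, (e ∩ B).card ≤ 1)
    (hsp : ∀ W : Finset β, W.Nonempty → W.card ≤ Fintype.card (ι → γ) →
      (P.filter (fun e => Disjoint e B ∧ e ⊆ W)).card < W.card)
    (φ : (ι → γ) → β) (hφ : ∀ E ∈ prodG H, E.image φ ∈ P) : False := by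
  classical
  have hinj : ∀ E ∈ prodG H, Set.InjOn φ E := by
    intro E hE
    rw [← Finset.card_image_iff, hP8 _ (hφ E hE), (mem_prodG.1 hE).1]
  have hsep : ∀ v ∈ Om H, ∀ w ∈ Om H, (∀ i, v i ≠ w i) → φ v ≠ φ w ∧ ¬ (φ v ∈ B ∧ φ w ∈ B) := by
    intro v hv w hw hvw
    obtain ⟨E, hE, hvE, hwE⟩ := pair_cover hH hv hw hvw
    have hne : v ≠ w := by
      rintro rfl
      obtain ⟨i⟩ := (inferInstance : Nonempty ι)
      exact hvw i rfl
    have h1 : φ v ≠ φ w := fun h => hne (hinj E hE hvE hwE h)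
    refine ⟨h1, fun h2 => ?_⟩
    have h3 := hPB _ (hφ E hE)
    rw [Finset.card_le_one] at h3
    exact h1 (h3 _ (mem_inter.2 ⟨mem_image_of_mem _ hvE, h2.1⟩) _
      (mem_inter.2 ⟨mem_image_of_mem _ hwE, h2.2⟩))
  -- two vertices in each factor
  have htwo : ∀ i, ∀ a : γ, ∃ b ∈ supp (H i), b ≠ a := by
    intro i a
    obtain ⟨e, he⟩ := (hH i).ne
    have hc := (hH i).unif e he
    obtain ⟨b, hb, hba⟩ := Finset.exists_mem_ne (s := e) (by omega) a
    exact ⟨b, mem_supp.2 ⟨e, he, hb⟩, hba⟩
  have hOm : (Om H).Nonempty := by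
    have h1 : ∀ i, ∃ b, b ∈ supp (H i) := by
      intro i
      obtain ⟨e, he⟩ := (hH i).ne
      have hc := (hH i).unif e he
      obtain ⟨b, hb⟩ : e.Nonempty := by rw [← Finset.card_pos]; omega
      exact ⟨b, mem_supp.2 ⟨e, he, hb⟩⟩
    choose f hf using h1
    exact ⟨f, mem_Om.2 hf⟩
  obtain ⟨p, hp, hpB⟩ : ∃ p ∈ Om H, ∀ v ∈ Om H, (∀ i, v i ≠ p i) → φ v ∉ B := by
    by_cases hex : ∃ p ∈ Om H, φ p ∈ B
    · obtain ⟨p, hp, hpB⟩ := hex
      exact ⟨p, hp, fun v hv hvp hvB => (hsep v hv p hp hvp).2 ⟨hvB, hpB⟩⟩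
    · push Not at hex
      obtain ⟨p, hp⟩ := hOm
      exact ⟨p, hp, fun v hv _ => hex v hv⟩
  set Vp : Finset (ι → γ) := (Om H).filter (fun v => ∀ i, v i ≠ p i) with hVp
  have hVpne : Vp.Nonempty := by
    choose f hf hf2 using fun i => htwo i (p i)
    refine ⟨f, ?_⟩
    rw [hVp, mem_filter]
    exact ⟨mem_Om.2 hf, hf2⟩
  set W := Vp.image φ with hW
  set Q := P.filter (fun e => Disjoint e B ∧ e ⊆ W) with hQ
  have hWne : W.Nonempty := hVpne.image φ
  have hWc : W.card ≤ Fintype.card (ι → γ) :=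
    Finset.card_image_le.trans (Finset.card_le_univ _)
  -- degree bound
  have hdeg : ∀ w ∈ W, 8 ≤ (Q.filter (fun e => w ∈ e)).card := by
    intro w hw
    rw [hW, mem_image] at hw
    obtain ⟨u, hu, rfl⟩ := hw
    rw [hVp, mem_filter] at hu
    obtain ⟨huO, hup⟩ := hu
    have hg : ∀ i, GS (((H i).filter (fun e => u i ∈ e ∧ p i ∉ e)).image (fun e => e.erase (u i))) 8 :=
      fun i => (hH i).grow (p i) (mem_Om.1 hp i) (u i) (mem_Om.1 huO i) (hup i)
    choose e c he hc using hg
    -- the actual edges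
    have he1 : ∀ i, ∀ j < 8, insert (u i) (e i j) ∈ H i ∧ u i ∉ e i j ∧ p i ∉ insert (u i) (e i j) := by
      intro i j hj
      have h1 := (he i j hj).1
      rw [mem_image] at h1
      obtain ⟨f, hf, hfe⟩ := h1
      rw [mem_filter] at hf
      rw [← hfe, Finset.insert_erase hf.2.1]
      exact ⟨hf.1, Finset.notMem_erase _ _, hf.2.2⟩
    have hcu : ∀ i, ∀ j < 8, u i ≠ c i j := by
      intro i j hj h
      exact (he1 i j hj).2.1 (h ▸ (he i j hj).2)
    have hgex : ∀ i, ∀ j : Fin 8, ∃ g : Fin 8 → γ, Function.Injective g ∧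
        univ.image g = insert (u i) (e i j) ∧ g 0 = u i ∧ g 1 = c i j := by
      intro i j
      exact enum_edge ((hH i).unif _ (he1 i j j.2).1) (mem_insert_self _ _)
        (mem_insert_of_mem (he i j j.2).2) (hcu i j j.2)
    choose g g1 g2 g3 g4 using hgex
    set F : Fin 8 → Finset (ι → γ) := fun j => univ.image (fun a : Fin 8 => fun i => g i j a) with hF
    have hFmem : ∀ j, F j ∈ prodG H := by
      intro j
      refine build_edge (fun i => g i j) (fun i => g1 i j) fun i => ?_
      have := g2 i j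
      rw [this]
      exact (he1 i j j.2).1
    have hFcoord : ∀ j, ∀ v ∈ F j, ∀ i, v i ∈ insert (u i) (e i j) := by
      intro j v hv i
      simp only [hF, mem_image, mem_univ, true_and] at hv
      obtain ⟨a, rfl⟩ := hv
      rw [← g2 i j]
      exact mem_image_of_mem _ (mem_univ a)
    have hFVp : ∀ j, ∀ v ∈ F j, v ∈ Vp := by
      intro j v hv
      rw [hVp, mem_filter, mem_Om]
      refine ⟨fun i => mem_supp.2 ⟨_, (he1 i j j.2).1, hFcoord j v hv i⟩, fun i h => ?_⟩
      have := hFcoord j v hv i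
      rw [h] at this
      exact (he1 i j j.2).2.2 this
    have hFu : ∀ j, u ∈ F j := by
      intro j
      simp only [hF, mem_image, mem_univ, true_and]
      exact ⟨0, funext fun i => g3 i j⟩
    set wv : Fin 8 → (ι → γ) := fun j i => c i j with hwv
    have hFw : ∀ j, wv j ∈ F j := by
      intro j
      simp only [hF, mem_image, mem_univ, true_and]
      exact ⟨1, funext fun i => g4 i j⟩
    have hdiff : ∀ j l : Fin 8, l < j → (F l).image φ ≠ (F j).image φ := by
      intro j l hlj heq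
      have h1 : φ (wv j) ∈ (F j).image φ := mem_image_of_mem _ (hFw j)
      rw [← heq, mem_image] at h1
      obtain ⟨v, hv, hvw⟩ := h1
      have hfd : ∀ i, v i ≠ wv j i := by
        intro i h
        have h2 := hFcoord l v hv i
        rw [h, mem_insert] at h2
        rcases h2 with h2 | h2
        · exact hcu i j j.2 h2.symm
        · exact hc i j j.2 l hlj h2
      have hvO : v ∈ Om H := (mem_filter.1 (hFVp l v hv)).1
      have hwO : wv j ∈ Om H := (mem_filter.1 (hFVp j _ (hFw j))).1
      exact (hsep v hvO _ hwO hfd).1 hvw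
    have hinjF : Function.Injective (fun j : Fin 8 => (F j).image φ) := by
      intro j l hjl
      rcases lt_trichotomy j l with h | h | h
      · exact absurd hjl (hdiff l j h)
      · exact h
      · exact absurd hjl.symm (hdiff j l h)
    have hsubF : (univ : Finset (Fin 8)).image (fun j => (F j).image φ) ⊆
        Q.filter (fun e => φ u ∈ e) := by
      intro E hE
      simp only [mem_image, mem_univ, true_and] at hE
      obtain ⟨j, rfl⟩ := hE
      rw [mem_filter, hQ, mem_filter]
      refine ⟨⟨hφ _ (hFmem j), ?_, ?_⟩, mem_image_of_mem _ (hFu j)⟩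
      · rw [Finset.disjoint_left]
        intro b hb hbB
        rw [mem_image] at hb
        obtain ⟨v, hv, rfl⟩ := hb
        have := hFVp j v hv
        rw [hVp, mem_filter] at this
        exact hpB v this.1 this.2 hbB
      · intro b hb
        rw [mem_image] at hb
        obtain ⟨v, hv, rfl⟩ := hb
        exact mem_image_of_mem _ (hFVp j v hv)
    have h8 := Finset.card_le_card hsubF
    rw [Finset.card_image_of_injective _ hinjF] at h8
    simpa using h8
  -- double counting
  have hcount : ∑ w ∈ W, (Q.filter (fun e => w ∈ e)).card = 8 * Q.card := by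
    simp only [Finset.card_filter]
    rw [Finset.sum_comm]
    have : ∀ e ∈ Q, ∑ w ∈ W, (if w ∈ e then 1 else 0) = 8 := by
      intro e he
      rw [hQ, mem_filter] at he
      rw [← Finset.card_filter, Finset.filter_mem_eq_inter, Finset.inter_eq_right.2 he.2.2]
      exact hP8 e he.1
    rw [Finset.sum_congr rfl this, Finset.sum_const, smul_eq_mul, mul_comm]
  have hlow : W.card * 8 ≤ ∑ w ∈ W, (Q.filter (fun e => w ∈ e)).card := by
    rw [← smul_eq_mul]
    exact Finset.card_nsmul_le_sum _ _ _ hdeg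
  have := hsp W hWne hWc
  rw [← hQ] at this
  omega

end Run7.h42.WO
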