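import Pool.Agent.Run7.h42.WO.Upper
import Pool.Agent.Run7.h42.WO.Lower
import Pool.Agent.Run7.h42.WO.Prod
import Pool.Agent.Run7.h42.WO.Patt

/-!
Turán densities of single `8`-graphs just above `(7/8)^7`.
-/

set_option autoImplicit false
set_option linter.unusedSectionVars false

open Finset

namespace Run7.h42.WO

/-- a dense `8`-graph on `m₀` vertices contains a good `8`-graph -/
lemma dense_good {m₀ : ℕ} (h8 : 8 ≤ m₀) {c : ℝ} (hc0 : 0 ≤ c)
    (hc : (7 / 8 : ℝ) ^ 7 < c * (1 - 64 / m₀)) (H₀ : Finset (Finset (Fin m₀)))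
    (hH : ∀ e ∈ H₀, e.card = 8) (hd : c * (m₀.choose 8 : ℝ) ≤ H₀.card) : ∃ H ⊆ H₀, Good H := by
  have hm0 : (0 : ℝ) < m₀ := by
    have : 0 < m₀ := by omega
    exact_mod_cast this
  refine lagr H₀ hH (fun _ => 1 / (m₀ : ℝ)) ⟨fun _ => by positivity, ?_⟩ ?_
  · rw [Finset.sum_const, card_univ, Fintype.card_fin, nsmul_eq_mul]
    field_simp
  · have h1 : lam H₀ (fun _ => 1 / (m₀ : ℝ)) = (H₀.card : ℝ) / (m₀ : ℝ) ^ 8 := by
      unfold lam
      have : ∀ e ∈ H₀, ∏ _a ∈ e, (1 / (m₀ : ℝ)) = 1 / (m₀ : ℝ) ^ 8 := by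
        intro e he
        rw [Finset.prod_const, hH e he, one_div_pow]
      rw [Finset.sum_congr rfl this, Finset.sum_const, nsmul_eq_mul, mul_one_div]
    rw [h1]
    have h2 := factorial_choose_lower (n := m₀) (k := 8) h8 (by omega)
    have h3 : ((Nat.factorial 8 : ℕ) : ℝ) = 40320 := by norm_num [Nat.factorial]
    rw [h3] at h2
    have h4 : (m₀ : ℝ) ^ 8 * (c * (1 - 64 / m₀)) ≤ 40320 * (H₀.card : ℝ) := by
      have e1 := mul_le_mul_of_nonneg_left h2 hc0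
      have e2 : c * ((m₀ : ℝ) ^ 8 * (1 - ((8 : ℕ) : ℝ) ^ 2 / m₀)) =
          (m₀ : ℝ) ^ 8 * (c * (1 - 64 / m₀)) := by push_cast; ring
      rw [e2] at e1
      linarith
    have hp : (0 : ℝ) < (m₀ : ℝ) ^ 8 := by positivity
    have h5 := mul_lt_mul_of_pos_left hc hp
    rw [div_lt_div_iff₀ (by norm_num) hp]
    linarith

theorem main_step (ε : ℝ) (hε : 0 < ε) (hε1 : ε ≤ 1) :
    ∃ m : ℕ, ∃ F : Finset (Finset (Fin m)), (∀ e ∈ F, e.card = 8) ∧
      ∀ d : ℝ, Filter.Tendsto (fun n : ℕ => (exn 8 m F n : ℝ) / (n.choose 8 : ℝ)) Filter.atTop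
        (nhds d) → (7 / 8 : ℝ) ^ 7 < d ∧ d ≤ (7 / 8 : ℝ) ^ 7 + ε := by
  classical
  set c : ℝ := (7 / 8 : ℝ) ^ 7 + ε / 2 with hc
  have hα : (7 / 8 : ℝ) ^ 7 ≤ 1 / 2 := by norm_num
  have hα0 : (0 : ℝ) < (7 / 8 : ℝ) ^ 7 := by positivity
  have hc0 : 0 ≤ c := by rw [hc]; positivity
  have hc1 : c ≤ 1 := by rw [hc]; linarith
  obtain ⟨m₁, hm₁⟩ := exists_nat_gt (128 / ε)
  set m₀ : ℕ := max m₁ 8 with hm₀
  have h8 : 8 ≤ m₀ := le_max_right _ _
  have hm0 : (0 : ℝ) < m₀ := by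
    have : 0 < m₀ := by omega
    exact_mod_cast this
  have hm₀' : 128 / ε < m₀ := by
    have : (m₁ : ℝ) ≤ m₀ := by exact_mod_cast le_max_left _ _
    linarith
  have hcc : (7 / 8 : ℝ) ^ 7 < c * (1 - 64 / m₀) := by
    rw [div_lt_iff₀ hε] at hm₀'
    have h1 : 64 / (m₀ : ℝ) < ε / 2 := by
      rw [div_lt_iff₀ hm0]; linarith
    have h2 : (0 : ℝ) ≤ 64 / (m₀ : ℝ) := by positivity
    have h3 : c * (64 / (m₀ : ℝ)) ≤ 64 / (m₀ : ℝ) := by
      have := mul_le_mul_of_nonneg_right hc1 h2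
      linarith
    have h4 : c * (1 - 64 / m₀) = c - c * (64 / (m₀ : ℝ)) := by ring
    rw [h4, hc] at *
    linarith
  -- the index set
  let ι : Type := {H : Finset (Finset (Fin m₀)) // Good H}
  have hιne : Nonempty ι := by
    obtain ⟨H, -, hH⟩ := dense_good h8 hc0 hcc (powersetCard 8 univ)
      (fun e he => (mem_powersetCard.1 he).2) (by
        rw [card_powersetCard, card_univ, Fintype.card_fin]
        have h1 : (0 : ℝ) ≤ (m₀.choose 8 : ℝ) := Nat.cast_nonneg _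
        have := mul_le_mul_of_nonneg_right hc1 h1
        linarith)
    exact ⟨⟨H, hH⟩⟩
  let Hf : ι → Finset (Finset (Fin m₀)) := fun i => i.1
  have hHf : ∀ i, Good (Hf i) := fun i => i.2
  let ε' : (ι → Fin m₀) ≃ Fin (Fintype.card (ι → Fin m₀)) := Fintype.equivFin _
  set N := Fintype.card (ι → Fin m₀) with hN
  set F : Finset (Finset (Fin N)) := (prodG Hf).image (fun E => E.image ε') with hF
  have hF8 : ∀ e ∈ F, e.card = 8 := by
    intro e he
    rw [hF, mem_image] at he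
    obtain ⟨E, hE, rfl⟩ := he
    rw [Finset.card_image_of_injective _ ε'.injective]
    exact (mem_prodG.1 hE).1
  have hN0 : 0 < N := by
    rw [hN]
    have : Nonempty (Fin m₀) := ⟨⟨0, by omega⟩⟩
    exact Fintype.card_pos
  refine ⟨N, F, hF8, fun d hd => ⟨?_, ?_⟩⟩
  · -- lower bound
    obtain ⟨a, ha, P, hP8, hPB, hPsp, hPc⟩ := exists_pattern N
    have : Nonempty (Fin (7 * a) ⊕ Fin a) := ⟨Sum.inr ⟨0, ha⟩⟩
    have hno : ∀ φ : Fin N → Fin (7 * a) ⊕ Fin a, ¬ ∀ e ∈ F, e.image φ ∈ P := by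
      intro φ hφ
      refine nohom hHf P (Bside a) hP8 hPB ?_ (φ ∘ ε') ?_
      · intro W hW hWc
        exact hPsp W hW hWc
      · intro E hE
        have := hφ (E.image ε') (by rw [hF]; exact mem_image_of_mem _ hE)
        rwa [Finset.image_image] at this
    have h1 := lower_density P hP8 F hno hd
    have h2 : (Fintype.card (Fin (7 * a) ⊕ Fin a) : ℝ) = 8 * (a : ℝ) := by
      rw [Fintype.card_sum, Fintype.card_fin, Fintype.card_fin]; push_cast; ring
    have h3 : ((Nat.factorial 8 : ℕ) : ℝ) = 40320 := by norm_num [Nat.factorial]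
    rw [h2, h3] at h1
    refine lt_of_lt_of_le ?_ h1
    have ha0 : (0 : ℝ) < a := by exact_mod_cast ha
    rw [lt_div_iff₀ (by positivity)]
    exact hPc
  · -- upper bound
    have h1 := upper_density (k := 8) (m₀ := m₀) h8 hN0 c (ε / 2) hc0 (by linarith) F hF8 ?_ hd
    · rw [hc] at h1; linarith
    · intro H₀ hH₀ hd₀
      obtain ⟨H, hHsub, hHg⟩ := dense_good h8 hc0 hcc H₀ hH₀ hd₀
      let i : ι := ⟨H, hHg⟩
      refine ⟨fun x => (ε'.symm x) i, fun e he => ?_⟩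
      rw [hF, mem_image] at he
      obtain ⟨E, hE, rfl⟩ := he
      rw [Finset.image_image]
      have h2 := (mem_prodG.1 hE).2 i
      have h3 : E.image ((fun x => (ε'.symm x) i) ∘ ε') = E.image (fun v => v i) := by
        refine Finset.image_congr fun v _ => ?_
        simp
      rw [h3]
      exact hHsub h2

end Run7.h42.WO
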