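import Mathlib

/-!
The numerical contradiction behind the growth lemma for `8`-graphs.
-/

set_option autoImplicit false

namespace Run7.h42.WO

lemma poly1 {s : ℝ} (h0 : 0 ≤ s) (h1 : s ≤ 7 / 100) : (1 + s) ^ 7 * (1 - 7 * s / 3) ^ 3 ≤ 1 := by
  have h2 : 0 ≤ s * (7 / 100 - s) := mul_nonneg h0 (by linarith)
  have h3 : 0 ≤ s ^ 2 * (s * (7 / 100 - s)) := by positivity
  have h4 : 0 ≤ s ^ 3 * (s * (7 / 100 - s)) := by positivity
  have h5 : 0 ≤ s ^ 4 * (s * (7 / 100 - s)) := by positivity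
  have h6 : 0 ≤ s ^ 5 * (s * (7 / 100 - s)) := by positivity
  have h7 : 0 ≤ s ^ 6 * (s * (7 / 100 - s)) := by positivity
  have h8 : 0 ≤ s ^ 7 * (s * (7 / 100 - s)) := by positivity
  have h9 : 0 ≤ s ^ 8 * (s * (7 / 100 - s)) := by positivity
  have h10 : 0 ≤ s * (s * (7 / 100 - s)) := by positivity
  have g2 : 0 ≤ s ^ 2 := by positivity
  have g3 : 0 ≤ s ^ 3 := by positivity
  have g4 : 0 ≤ s ^ 4 := by positivity
  have g5 : 0 ≤ s ^ 5 := by positivity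
  have g6 : 0 ≤ s ^ 6 := by positivity
  have g7 : 0 ≤ s ^ 7 := by positivity
  have g8 : 0 ≤ s ^ 8 := by positivity
  have g9 : 0 ≤ s ^ 9 := by positivity
  have g10 : 0 ≤ s ^ 10 := by positivity
  ring_nf at *
  linarith

/-- `13 ⋅ 12 ⋅ ⋯ ⋅ 7 / 13 ^ 7` -/
noncomputable def kap : ℝ := 8648640 / 62748517

lemma core {t ψ m : ℝ} (ht1 : 1 < t) (ht2 : t < 8 / 7) (hψ0 : 0 ≤ ψ) (hψ1 : ψ ≤ 1)
    (h1 : 1 < t ^ 7 * ψ ^ 3) (hm1 : m ≤ 1) (hm2 : m ≤ 13 * (1 - ψ)) :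
    t ^ 6 * (8 - 7 * t) * ψ ^ 3 + kap * t ^ 7 * m ≤ 1 := by
  have hk0 : 0 ≤ kap := by unfold kap; norm_num
  have hψ3 : ψ ^ 3 ≤ 1 := pow_le_one₀ hψ0 hψ1
  have ht0 : 0 < t := by linarith
  have hA0 : 0 ≤ t ^ 6 * (8 - 7 * t) := mul_nonneg (by positivity) (by linarith)
  rcases le_or_gt (107 / 100) t with hc | hc
  · have e1 : t ^ 6 * (8 - 7 * t) * ψ ^ 3 ≤ t ^ 6 * (8 - 7 * t) := by
      have := mul_le_mul_of_nonneg_left hψ3 hA0
      linarith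
    have e2 : kap * t ^ 7 * m ≤ kap * t ^ 7 := by
      have := mul_le_mul_of_nonneg_left hm1 (by positivity : 0 ≤ kap * t ^ 7)
      linarith
    have e3 : t ^ 6 * (8 - 7 * t) + kap * t ^ 7 ≤ 1 := by
      obtain ⟨w, hw⟩ : ∃ w, t = 107 / 100 + w := ⟨t - 107 / 100, by ring⟩
      have hw0 : 0 ≤ w := by linarith
      subst hw
      have g2 : 0 ≤ w ^ 2 := by positivity
      have g3 : 0 ≤ w ^ 3 := by positivity
      have g4 : 0 ≤ w ^ 4 := by positivity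
      have g5 : 0 ≤ w ^ 5 := by positivity
      have g6 : 0 ≤ w ^ 6 := by positivity
      have g7 : 0 ≤ w ^ 7 := by positivity
      unfold kap
      ring_nf
      linarith
    linarith
  · obtain ⟨s, hs⟩ : ∃ s, t = 1 + s := ⟨t - 1, by ring⟩
    obtain ⟨θ, hθ⟩ : ∃ θ, ψ = 1 - θ := ⟨1 - ψ, by ring⟩
    subst hs hθ
    have hs0 : 0 < s := by linarith
    have hs1 : s ≤ 7 / 100 := by linarith
    have hθ0 : 0 ≤ θ := by linarith
    have p1 := poly1 hs0.le hs1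
    have hθ1 : θ ≤ 7 * s / 3 := by
      by_contra hcon
      push Not at hcon
      have e1 : (1 - θ) ^ 3 ≤ (1 - 7 * s / 3) ^ 3 := pow_le_pow_left₀ hψ0 (by linarith) 3
      have e2 : (1 + s) ^ 7 * (1 - θ) ^ 3 ≤ (1 + s) ^ 7 * (1 - 7 * s / 3) ^ 3 :=
        mul_le_mul_of_nonneg_left e1 (by positivity)
      linarith
    set A := (1 + s) ^ 6 * (8 - 7 * (1 + s)) with hA
    have hA1 : A ≤ 1 := by
      have g2 : 0 ≤ s ^ 2 := by positivity
      have g3 : 0 ≤ s ^ 3 := by positivity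
      have g4 : 0 ≤ s ^ 4 := by positivity
      have g5 : 0 ≤ s ^ 5 := by positivity
      have g6 : 0 ≤ s ^ 6 := by positivity
      have g7 : 0 ≤ s ^ 7 := by positivity
      rw [hA]; ring_nf; linarith
    set C := kap * (1 + s) ^ 7 * 13 with hC
    have hC0 : 0 ≤ C := by rw [hC]; positivity
    have hm : kap * (1 + s) ^ 7 * m ≤ C * θ := by
      have e1 : m ≤ 13 * θ := by linarith
      have := mul_le_mul_of_nonneg_left e1 (by positivity : 0 ≤ kap * (1 + s) ^ 7)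
      rw [hC]; linarith
    set θ₁ := 7 * s / 3 with hθ₁
    have hθ₁1 : θ₁ ≤ 1 := by rw [hθ₁]; linarith
    have e3 : 3 - 3 * θ₁ + θ₁ ^ 2 ≤ 3 - 3 * θ + θ ^ 2 := by nlinarith
    have e4 : A * (3 - 3 * θ₁ + θ₁ ^ 2) ≤ A * (3 - 3 * θ + θ ^ 2) :=
      mul_le_mul_of_nonneg_left e3 hA0
    have e5 : A * (1 - θ) ^ 3 + C * θ ≤ A + θ * (C - A * (3 - 3 * θ₁ + θ₁ ^ 2)) := by
      have e5 := mul_le_mul_of_nonneg_left e4 hθ0
      have e6 : A * (1 - θ) ^ 3 + C * θ = A + θ * C - θ * (A * (3 - 3 * θ + θ ^ 2)) := by ring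
      rw [e6, mul_sub]
      linarith
    have e6 : A * (1 - θ₁) ^ 3 + C * θ₁ ≤ 1 := by
      have hpos : 0 < 1 + s := by linarith
      have q1 : (1 + s) * (A * (1 - θ₁) ^ 3) ≤ 1 - 7 * s := by
        have : (1 + s) * (A * (1 - θ₁) ^ 3) = (1 - 7 * s) * ((1 + s) ^ 7 * (1 - 7 * s / 3) ^ 3) := by
          rw [hA, hθ₁]; ring
        rw [this]
        have := mul_le_mul_of_nonneg_left p1 (by linarith : 0 ≤ 1 - 7 * s)
        linarith
      have q2 : (1 + s) ^ 8 ≤ (107 / 100) ^ 8 := pow_le_pow_left₀ (by linarith) (by linarith) 8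
      have q3 : (1 + s) * (C * θ₁) ≤ 8 * s := by
        have : (1 + s) * (C * θ₁) = (13 * 7 / 3 * kap) * s * (1 + s) ^ 8 := by
          rw [hC, hθ₁]; ring
        rw [this]
        have q4 : (13 * 7 / 3 * kap) * (1 + s) ^ 8 ≤ 8 := by
          have q5 := mul_le_mul_of_nonneg_left q2 (by positivity : 0 ≤ 13 * 7 / 3 * kap)
          refine q5.trans ?_
          unfold kap; norm_num
        have q6 := mul_le_mul_of_nonneg_left q4 hs0.le
        linarith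
      have q6 : (1 + s) * (A * (1 - θ₁) ^ 3 + C * θ₁) ≤ (1 + s) * 1 := by
        rw [mul_add]; linarith
      exact le_of_mul_le_mul_left q6 hpos
    have e7 : A + θ * (C - A * (3 - 3 * θ₁ + θ₁ ^ 2)) ≤ 1 := by
      rcases le_or_gt C (A * (3 - 3 * θ₁ + θ₁ ^ 2)) with hh | hh
      · have := mul_nonneg hθ0 (by linarith : 0 ≤ A * (3 - 3 * θ₁ + θ₁ ^ 2) - C)
        linarith
      · have := mul_le_mul_of_nonneg_right hθ1 (by linarith : 0 ≤ C - A * (3 - 3 * θ₁ + θ₁ ^ 2))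
        have e8 : A + θ₁ * (C - A * (3 - 3 * θ₁ + θ₁ ^ 2)) = A * (1 - θ₁) ^ 3 + C * θ₁ := by ring
        linarith
    linarith

lemma num_contra {a z Y Λ : ℝ} (ha0 : 0 < a) (ha1 : a < 1) (hz0 : 0 ≤ z) (hz1 : z ≤ a ^ 2)
    (hY0 : 0 ≤ Y) (hYa : Y ≤ a) (hY2 : Y ^ 2 ≤ 13 * (a ^ 2 - z)) (h1 : (7 / 8) ^ 7 < z ^ 3 * a)
    (hΛ : 5040 * Λ ≤ kap * Y ^ 7) (h2 : (7 / 8) ^ 7 < 7 * (1 - a) * z ^ 3 + 5040 * Λ) : False := by
  have hk0 : 0 ≤ kap := by unfold kap; norm_num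
  set t := 8 * a / 7 with ht
  have hat : a = 7 * t / 8 := by rw [ht]; ring
  set ψ := z / a ^ 2 with hψ
  have hza : z = a ^ 2 * ψ := by rw [hψ]; field_simp
  set y := Y / a with hy
  have hYy : Y = a * y := by rw [hy]; field_simp
  have ha2 : 0 < a ^ 2 := by positivity
  have hψ0 : 0 ≤ ψ := by rw [hψ]; positivity
  have hψ1 : ψ ≤ 1 := by rw [hψ, div_le_one ha2]; exact hz1
  have hy0 : 0 ≤ y := by rw [hy]; positivity
  have hy1 : y ≤ 1 := by rw [hy, div_le_one ha0]; exact hYa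
  have hy2 : y ^ 2 ≤ 13 * (1 - ψ) := by
    rw [hYy, hza, mul_pow] at hY2
    have : a ^ 2 * y ^ 2 ≤ a ^ 2 * (13 * (1 - ψ)) := by linarith
    exact le_of_mul_le_mul_left this ha2
  have hc : (0 : ℝ) < (7 / 8) ^ 7 := by positivity
  have h1' : 1 < t ^ 7 * ψ ^ 3 := by
    rw [hza, hat] at h1
    have : (7 / 8 : ℝ) ^ 7 * 1 < (7 / 8) ^ 7 * (t ^ 7 * ψ ^ 3) := by
      rw [mul_one]; refine h1.trans_le (le_of_eq ?_); ring
    exact lt_of_mul_lt_mul_left this hc.le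
  have ht1 : 1 < t := by
    by_contra hcon
    push Not at hcon
    have ht0 : 0 ≤ t := by rw [ht]; positivity
    have e1 : t ^ 7 ≤ 1 := pow_le_one₀ ht0 hcon
    have e2 : ψ ^ 3 ≤ 1 := pow_le_one₀ hψ0 hψ1
    have e3 : t ^ 7 * ψ ^ 3 ≤ 1 := mul_le_one₀ e1 (by positivity) e2
    linarith
  have ht2 : t < 8 / 7 := by rw [ht]; linarith
  have hy7 : y ^ 7 ≤ y ^ 2 := pow_le_pow_of_le_one hy0 hy1 (by norm_num)
  have hy7' : y ^ 7 ≤ 1 := pow_le_one₀ hy0 hy1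
  have key := core ht1 ht2 hψ0 hψ1 h1' hy7' (hy7.trans hy2)
  have h3 : (7 / 8) ^ 7 < 7 * (1 - a) * z ^ 3 + kap * Y ^ 7 := by linarith
  rw [hYy, hza, hat] at h3
  have h4 : (7 / 8 : ℝ) ^ 7 * 1 < (7 / 8) ^ 7 * (t ^ 6 * (8 - 7 * t) * ψ ^ 3 + kap * t ^ 7 * y ^ 7) := by
    rw [mul_one]; refine h3.trans_le (le_of_eq ?_); ring
  have h5 := lt_of_mul_lt_mul_left h4 hc.le
  linarith

end Run7.h42.WO
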