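import Mathlib

/-!
Locally sparse `8`-graphs with many edges (first moment and deletion).
-/

set_option autoImplicit false
set_option linter.unusedSectionVars false

open Finset

namespace Run7.h42.WO

/-- number of colourings vanishing on `E` -/
lemma card_zero_on {X : Type*} [Fintype X] [DecidableEq X] (q : ℕ) (E : Finset X) :
    ((univ : Finset (X → Fin (q + 1))).filter (fun χ => ∀ e ∈ E, χ e = 0)).card * (q + 1) ^ E.card =
      Fintype.card (X → Fin (q + 1)) := by
  have h1 : (univ : Finset (X → Fin (q + 1))).filter (fun χ => ∀ e ∈ E, χ e = 0) =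
      Fintype.piFinset (fun e => if e ∈ E then {0} else univ) := by
    ext χ
    simp only [mem_filter, mem_univ, true_and, Fintype.mem_piFinset]
    constructor
    · intro h e
      by_cases he : e ∈ E
      · simp [he, h e he]
      · simp [he]
    · intro h e he
      have := h e
      rw [if_pos he, mem_singleton] at this
      exact this
  rw [h1, Fintype.card_piFinset, Fintype.card_fun, Fintype.card_fin]
  have h2 : ∀ e : X, (if e ∈ E then ({0} : Finset (Fin (q + 1))) else univ).card =
      if e ∈ E then 1 else (q + 1) := by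
    intro e
    by_cases he : e ∈ E <;> simp [he]
  simp_rw [h2]
  rw [Finset.prod_ite, Finset.prod_const_one, one_mul, Finset.prod_const, ← pow_add]
  congr 1
  have h3 : (univ.filter (fun e => e ∉ E)).card + E.card = Fintype.card X := by
    have h4 : univ.filter (fun e => e ∉ E) = Eᶜ := by ext e; simp
    rw [h4, Finset.card_compl]
    have := Finset.card_le_univ E
    omega
  exact h3

/-- first moment and deletion -/
theorem deletion (n t q : ℕ) (x : ℝ)
    (hx : x ≤ (n.choose 8 : ℝ) / ((q : ℝ) + 1) -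
      ∑ s ∈ range (t + 1), (n.choose s : ℝ) * (2 : ℝ) ^ (2 ^ t) / ((q : ℝ) + 1) ^ s) :
    ∃ T : Finset (Finset (Fin n)), (∀ e ∈ T, e.card = 8) ∧ x ≤ T.card ∧
      ∀ W : Finset (Fin n), W.Nonempty → W.card ≤ t → (T.filter (fun e => e ⊆ W)).card < W.card := by
  classical
  set U : Finset (Finset (Fin n)) := powersetCard 8 univ with hU
  set Bad : Finset ((_ : Finset (Fin n)) × Finset (Finset (Fin n))) :=
    ((univ : Finset (Finset (Fin n))).filter (fun W => W.Nonempty ∧ W.card ≤ t)).sigma
      (fun W => W.powerset.powerset.filter (fun E => E.card = W.card)) with hBad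
  set Tc : (Finset (Fin n) → Fin (q + 1)) → Finset (Finset (Fin n)) :=
    fun χ => U.filter (fun e => χ e = 0) with hTc
  set Bc : (Finset (Fin n) → Fin (q + 1)) → Finset ((_ : Finset (Fin n)) × Finset (Finset (Fin n))) :=
    fun χ => Bad.filter (fun b => ∀ e ∈ b.2, χ e = 0) with hBc
  set M : ℝ := (Fintype.card (Finset (Fin n) → Fin (q + 1)) : ℝ) with hM
  have hM0 : 0 < M := by
    rw [hM]; exact_mod_cast Fintype.card_pos
  have hq : (0 : ℝ) < (q : ℝ) + 1 := by positivity
  have hcz : ∀ E : Finset (Finset (Fin n)),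
      (((univ : Finset (Finset (Fin n) → Fin (q + 1))).filter (fun χ => ∀ e ∈ E, χ e = 0)).card : ℝ) =
        M / ((q : ℝ) + 1) ^ E.card := by
    intro E
    rw [eq_div_iff (by positivity), hM, ← card_zero_on q E]
    push_cast; ring
  -- sums
  have s1 : ∑ χ, ((Tc χ).card : ℝ) = M * ((n.choose 8 : ℝ) / ((q : ℝ) + 1)) := by
    have e1 : ∑ χ, ((Tc χ).card : ℝ) = ∑ e ∈ U,
        (((univ : Finset (Finset (Fin n) → Fin (q + 1))).filter (fun χ => ∀ a ∈ ({e} : Finset (Finset (Fin n))), χ a = 0)).card : ℝ) := by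
      simp only [hTc, Finset.card_filter, mem_singleton, forall_eq]
      push_cast
      exact Finset.sum_comm
    rw [e1, Finset.sum_congr rfl fun e _ => hcz {e}]
    simp only [Finset.card_singleton, pow_one]
    rw [Finset.sum_const, hU, card_powersetCard, card_univ, Fintype.card_fin, nsmul_eq_mul]
    ring
  have s2 : ∑ χ, ((Bc χ).card : ℝ) = ∑ b ∈ Bad, M / ((q : ℝ) + 1) ^ b.2.card := by
    have e1 : ∑ χ, ((Bc χ).card : ℝ) = ∑ b ∈ Bad,
        (((univ : Finset (Finset (Fin n) → Fin (q + 1))).filter (fun χ => ∀ a ∈ b.2, χ a = 0)).card : ℝ) := by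
      simp only [hBc, Finset.card_filter]
      push_cast
      exact Finset.sum_comm
    rw [e1, Finset.sum_congr rfl fun b _ => hcz b.2]
  have s3 : ∑ b ∈ Bad, M / ((q : ℝ) + 1) ^ b.2.card ≤
      M * ∑ s ∈ range (t + 1), (n.choose s : ℝ) * (2 : ℝ) ^ (2 ^ t) / ((q : ℝ) + 1) ^ s := by
    rw [hBad, Finset.sum_sigma]
    have e1 : ∀ W ∈ (univ : Finset (Finset (Fin n))).filter (fun W => W.Nonempty ∧ W.card ≤ t),
        ∑ E ∈ W.powerset.powerset.filter (fun E => E.card = W.card), M / ((q : ℝ) + 1) ^ E.card ≤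
          M * ((2 : ℝ) ^ (2 ^ t) / ((q : ℝ) + 1) ^ W.card) := by
      intro W hW
      rw [mem_filter] at hW
      have e2 : ∀ E ∈ W.powerset.powerset.filter (fun E => E.card = W.card),
          M / ((q : ℝ) + 1) ^ E.card = M / ((q : ℝ) + 1) ^ W.card := by
        intro E hE
        rw [(mem_filter.1 hE).2]
      rw [Finset.sum_congr rfl e2, Finset.sum_const, nsmul_eq_mul]
      have e3 : ((W.powerset.powerset.filter (fun E => E.card = W.card)).card : ℝ) ≤
          (2 : ℝ) ^ (2 ^ t) := by
        have e4 : (W.powerset.powerset.filter (fun E => E.card = W.card)).card ≤ 2 ^ (2 ^ t) := by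
          refine (Finset.card_filter_le _ _).trans ?_
          rw [Finset.card_powerset, Finset.card_powerset]
          exact Nat.pow_le_pow_right (by norm_num) (Nat.pow_le_pow_right (by norm_num) hW.2.2)
        exact_mod_cast e4
      have e5 : 0 ≤ M / ((q : ℝ) + 1) ^ W.card := by positivity
      calc _ ≤ (2 : ℝ) ^ (2 ^ t) * (M / ((q : ℝ) + 1) ^ W.card) :=
            mul_le_mul_of_nonneg_right e3 e5
        _ = _ := by ring
    refine (Finset.sum_le_sum e1).trans ?_
    rw [← Finset.mul_sum]
    refine mul_le_mul_of_nonneg_left ?_ hM0.le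
    have e6 : ∑ W ∈ (univ : Finset (Finset (Fin n))).filter (fun W => W.Nonempty ∧ W.card ≤ t),
        (2 : ℝ) ^ (2 ^ t) / ((q : ℝ) + 1) ^ W.card =
        ∑ s ∈ range (t + 1), ∑ W ∈ ((univ : Finset (Finset (Fin n))).filter
          (fun W => W.Nonempty ∧ W.card ≤ t)).filter (fun W => W.card = s),
          (2 : ℝ) ^ (2 ^ t) / ((q : ℝ) + 1) ^ W.card := by
      symm
      apply Finset.sum_fiberwise_of_maps_to
      intro W hW
      rw [mem_filter] at hW
      rw [mem_range]; omega
    rw [e6]
    refine Finset.sum_le_sum fun s _ => ?_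
    have e7 : ∀ W ∈ ((univ : Finset (Finset (Fin n))).filter
          (fun W => W.Nonempty ∧ W.card ≤ t)).filter (fun W => W.card = s),
          (2 : ℝ) ^ (2 ^ t) / ((q : ℝ) + 1) ^ W.card = (2 : ℝ) ^ (2 ^ t) / ((q : ℝ) + 1) ^ s := by
      intro W hW
      rw [(mem_filter.1 hW).2]
    rw [Finset.sum_congr rfl e7, Finset.sum_const, nsmul_eq_mul]
    have e8 : (((((univ : Finset (Finset (Fin n))).filter
          (fun W => W.Nonempty ∧ W.card ≤ t)).filter (fun W => W.card = s)).card : ℕ) : ℝ) ≤
          (n.choose s : ℝ) := by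
      have e9 : ((((univ : Finset (Finset (Fin n))).filter
          (fun W => W.Nonempty ∧ W.card ≤ t)).filter (fun W => W.card = s)).card : ℕ) ≤
          n.choose s := by
        have : n.choose s = (powersetCard s (univ : Finset (Fin n))).card := by
          rw [card_powersetCard, card_univ, Fintype.card_fin]
        rw [this]
        refine Finset.card_le_card fun W hW => ?_
        rw [mem_filter] at hW
        rw [mem_powersetCard]
        exact ⟨subset_univ _, hW.2⟩
      exact_mod_cast e9
    have e10 : (0 : ℝ) ≤ (2 : ℝ) ^ (2 ^ t) / ((q : ℝ) + 1) ^ s := by positivity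
    calc _ ≤ (n.choose s : ℝ) * ((2 : ℝ) ^ (2 ^ t) / ((q : ℝ) + 1) ^ s) :=
          mul_le_mul_of_nonneg_right e8 e10
      _ = _ := by ring
  -- a good colouring
  obtain ⟨χ, hχ⟩ : ∃ χ, x ≤ ((Tc χ).card : ℝ) - ((Bc χ).card : ℝ) := by
    by_contra hcon
    push Not at hcon
    have h1 : ∑ χ, (((Tc χ).card : ℝ) - ((Bc χ).card : ℝ)) < ∑ _χ : Finset (Fin n) → Fin (q + 1), x :=
      Finset.sum_lt_sum_of_nonempty univ_nonempty fun χ _ => hcon χ
    rw [Finset.sum_sub_distrib, s1, s2, Finset.sum_const, card_univ, nsmul_eq_mul, ← hM] at h1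
    have h2 := mul_le_mul_of_nonneg_left hx hM0.le
    linarith
  -- deletion
  have hne : ∀ b ∈ Bc χ, ∃ e, e ∈ b.2 := by
    intro b hb
    rw [hBc, mem_filter, hBad, mem_sigma, mem_filter, mem_filter] at hb
    have h1 : 0 < b.2.card := by
      rw [hb.1.2.2]; exact Finset.card_pos.2 hb.1.1.2.1
    exact Finset.card_pos.1 h1
  choose! f hf using hne
  refine ⟨Tc χ \ (Bc χ).image f, ?_, ?_, ?_⟩
  · intro e he
    have := (mem_sdiff.1 he).1
    rw [hTc, mem_filter, hU, mem_powersetCard] at this
    exact this.1.2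
  · have h1 : (Tc χ).card ≤ (Tc χ \ (Bc χ).image f).card + ((Bc χ).image f).card :=
      Finset.card_le_card_sdiff_add_card
    have h2 : ((Bc χ).image f).card ≤ (Bc χ).card := Finset.card_image_le
    have h3 : ((Tc χ).card : ℝ) ≤ ((Tc χ \ (Bc χ).image f).card : ℝ) + ((Bc χ).card : ℝ) := by
      exact_mod_cast h1.trans (by omega)
    linarith
  · intro W hW hWt
    by_contra hcon
    push Not at hcon
    obtain ⟨E, hE, hEc⟩ := Finset.exists_subset_card_eq hcon
    have hb : (⟨W, E⟩ : (_ : Finset (Fin n)) × Finset (Finset (Fin n))) ∈ Bc χ := by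
      rw [hBc, mem_filter, hBad, mem_sigma, mem_filter, mem_filter]
      refine ⟨⟨⟨mem_univ _, hW, hWt⟩, ?_, hEc⟩, ?_⟩
      · rw [mem_powerset]
        intro e he
        rw [mem_powerset]
        exact (mem_filter.1 (hE he)).2
      · intro e he
        have h1 := (mem_sdiff.1 (mem_filter.1 (hE he)).1).1
        rw [hTc, mem_filter] at h1
        exact h1.2
    have h1 := hf _ hb
    have h2 := (mem_sdiff.1 (mem_filter.1 (hE h1)).1).2
    exact h2 (mem_image_of_mem f hb)

end Run7.h42.WO
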