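import Pool.Agent.Run7.h42.WO.Top
import Pool.Agent.Run7.h42.WO.Num

/-!
The growth lemma: in an `8`-graph with a probability weighting under which the weighted degrees
of two vertices `r ≠ u` exceed `(7/8)^7 / 7!`, the link of `u` outside `r` has a growth sequence
of length `8`.
-/

set_option autoImplicit false
set_option linter.unusedSectionVars false

open Finset

namespace Run7.h42.WO

variable {α : Type*} [DecidableEq α]

/-- weighted degree of `i` -/
def D (H : Finset (Finset α)) (x : α → ℝ) (i : α) : ℝ :=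
  ∑ e ∈ H.filter (fun e => i ∈ e), ∏ a ∈ e.erase i, x a

lemma erase_inj_on (i : α) (H : Finset (Finset α)) :
    Set.InjOn (fun e : Finset α => e.erase i) (H.filter (fun e => i ∈ e) : Finset (Finset α)) := by
  intro a ha b hb hab
  simp only [coe_filter, Set.mem_ofPred_eq] at ha hb
  have hab' : a.erase i = b.erase i := hab
  rw [← Finset.insert_erase ha.2, ← Finset.insert_erase hb.2, hab']

lemma sum_sq_le {x : α → ℝ} (hx : ∀ a, 0 ≤ x a) (V : Finset α) :
    ∑ i ∈ V, x i ^ 2 ≤ (∑ i ∈ V, x i) ^ 2 := by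
  rw [sq, Finset.sum_mul]
  refine Finset.sum_le_sum fun i hi => ?_
  rw [sq]
  exact mul_le_mul_of_nonneg_left (Finset.single_le_sum (f := x) (fun i _ => hx i) hi) (hx i)

lemma E_seven {x : α → ℝ} (hx : ∀ a, 0 ≤ x a) (V : Finset α) :
    5040 * E x 7 V ≤ ((∑ i ∈ V, x i) ^ 2 - ∑ i ∈ V, x i ^ 2) ^ 3 * ∑ i ∈ V, x i := by
  set z := (∑ i ∈ V, x i) ^ 2 - ∑ i ∈ V, x i ^ 2 with hz
  have h5 := two_step hx 5 V
  have h3 := two_step hx 3 V
  have h1 := two_step hx 1 V
  have h0 := E_succ x 0 V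
  simp at h0
  rw [← hz] at h5 h3 h1
  norm_num at h5 h3 h1 h0
  have hz0 : 0 ≤ z := by
    rw [hz]
    have := sum_sq_le hx V
    linarith
  have g3 : 0 ≤ z ^ 2 := by positivity
  have a1 := mul_le_mul_of_nonneg_left h3 hz0
  have a2 := mul_le_mul_of_nonneg_left h1 g3
  rw [h0] at a2
  nlinarith

lemma E_six {x : α → ℝ} (hx : ∀ a, 0 ≤ x a) (V : Finset α) :
    720 * E x 6 V ≤ ((∑ i ∈ V, x i) ^ 2 - ∑ i ∈ V, x i ^ 2) ^ 3 := by
  set z := (∑ i ∈ V, x i) ^ 2 - ∑ i ∈ V, x i ^ 2 with hz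
  have h5 := two_step hx 4 V
  have h3 := two_step hx 2 V
  have h1 := two_step hx 0 V
  have h0 := E_zero x V
  rw [← hz] at h5 h3 h1
  norm_num at h5 h3 h1
  have hz0 : 0 ≤ z := by
    rw [hz]
    have := sum_sq_le hx V
    linarith
  have g3 : 0 ≤ z ^ 2 := by positivity
  have a1 := mul_le_mul_of_nonneg_left h3 hz0
  have a2 := mul_le_mul_of_nonneg_left h1 g3
  rw [h0] at a2
  nlinarith

lemma E_top {x : α → ℝ} (hx : ∀ a, 0 ≤ x a) (W : Finset α) (hW : W.card ≤ 13) :
    5040 * E x 7 W ≤ kap * (∑ i ∈ W, x i) ^ 7 := by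
  set Y := ∑ i ∈ W, x i with hY
  have hY0 : 0 ≤ Y := Finset.sum_nonneg fun i _ => hx i
  have h0 := maclaurin_step hx 0 13 W hW
  have h1 := maclaurin_step hx 1 13 W hW
  have h2 := maclaurin_step hx 2 13 W hW
  have h3 := maclaurin_step hx 3 13 W hW
  have h4 := maclaurin_step hx 4 13 W hW
  have h5 := maclaurin_step hx 5 13 W hW
  have h6 := maclaurin_step hx 6 13 W hW
  rw [E_zero] at h0
  rw [← hY] at h0 h1 h2 h3 h4 h5 h6
  norm_num at h0 h1 h2 h3 h4 h5 h6
  have b1 : 13 * E x 1 W ≤ 13 * Y := by linarith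
  have b2 : 26 * E x 2 W ≤ 12 * Y * Y := by
    have := mul_le_mul_of_nonneg_left b1 hY0; nlinarith
  have b3 : 39 * 26 * E x 3 W ≤ 11 * 12 * Y ^ 3 := by
    have := mul_le_mul_of_nonneg_left b2 hY0; nlinarith
  have b4 : 52 * (39 * 26) * E x 4 W ≤ 10 * 11 * 12 * Y ^ 4 := by
    have := mul_le_mul_of_nonneg_left b3 hY0; nlinarith
  have b5 : 65 * (52 * (39 * 26)) * E x 5 W ≤ 9 * 10 * 11 * 12 * Y ^ 5 := by
    have := mul_le_mul_of_nonneg_left b4 hY0; nlinarith
  have b6 : 78 * (65 * (52 * (39 * 26))) * E x 6 W ≤ 8 * 9 * 10 * 11 * 12 * Y ^ 6 := by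
    have := mul_le_mul_of_nonneg_left b5 hY0; nlinarith
  have b7 : 91 * (78 * (65 * (52 * (39 * 26)))) * E x 7 W ≤ 7 * 8 * 9 * 10 * 11 * 12 * Y ^ 7 := by
    have := mul_le_mul_of_nonneg_left b6 hY0; nlinarith
  unfold kap
  nlinarith

theorem star [Fintype α] (H : Finset (Finset α)) (h8 : ∀ e ∈ H, e.card = 8) (x : α → ℝ)
    (hx : ∀ a, 0 ≤ x a) (hsum : ∑ a, x a = 1) (r u : α) (hur : u ≠ r) (hxr : 0 < x r)
    (hxu : 0 < x u) (hr : (7 / 8) ^ 7 / 5040 < D H x r) (hu : (7 / 8) ^ 7 / 5040 < D H x u) :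
    GS ((H.filter (fun e => u ∈ e ∧ r ∉ e)).image (fun e => e.erase u)) 8 := by
  by_contra hGS
  set V : Finset α := univ.erase r with hV
  set L := (H.filter (fun e => u ∈ e ∧ r ∉ e)).image (fun e => e.erase u) with hL
  set a := ∑ i ∈ V, x i with ha
  set q := ∑ i ∈ V, x i ^ 2 with hq
  have har : a = 1 - x r := by
    have := Finset.add_sum_erase univ x (mem_univ r)
    rw [hsum] at this
    rw [ha, hV]; linarith
  obtain ⟨W, hWV, hWc, hWd, hWt⟩ := exists_top x V 13
  have hLV : ∀ τ ∈ L, τ ⊆ V ∧ τ.card = 7 := by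
    intro τ hτ
    rw [hL, mem_image] at hτ
    obtain ⟨e, he, rfl⟩ := hτ
    rw [mem_filter] at he
    refine ⟨fun b hb => ?_, ?_⟩
    · rw [hV, mem_erase]
      refine ⟨?_, mem_univ _⟩
      rintro rfl
      exact he.2.2 (Finset.mem_of_mem_erase hb)
    · rw [Finset.card_erase_of_mem he.2.1, h8 e he.1]
  have hΛ := top_bound hx V.card V W rfl hWV hWt 7 7 L hLV hGS (by
    rcases hWd with h | h
    · left; omega
    · right; exact h)
  have hΛ2 := E_top hx W hWc
  set Λ := ∑ τ ∈ L, ∏ b ∈ τ, x b with hΛdef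
  set Y := ∑ i ∈ W, x i with hY
  have hY0 : 0 ≤ Y := Finset.sum_nonneg fun i _ => hx i
  have hYa : Y ≤ a := Finset.sum_le_sum_of_subset_of_nonneg hWV fun i _ _ => hx i
  have hY2 : Y ^ 2 ≤ 13 * q := by
    have e1 := sq_sum_le_card_mul_sum_sq (s := W) (f := x)
    have e2 : ∑ i ∈ W, x i ^ 2 ≤ q :=
      Finset.sum_le_sum_of_subset_of_nonneg hWV fun i _ _ => sq_nonneg _
    have e3 : (W.card : ℝ) ≤ 13 := by exact_mod_cast hWc
    have e4 : 0 ≤ ∑ i ∈ W, x i ^ 2 := Finset.sum_nonneg fun i _ => sq_nonneg _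
    have e5 : (W.card : ℝ) * ∑ i ∈ W, x i ^ 2 ≤ 13 * ∑ i ∈ W, x i ^ 2 :=
      mul_le_mul_of_nonneg_right e3 e4
    linarith
  -- first degree bound
  have hDr : D H x r ≤ E x 7 V := by
    have e1 : D H x r = ∑ τ ∈ (H.filter (fun e => r ∈ e)).image (fun e => e.erase r), ∏ b ∈ τ, x b := by
      rw [Finset.sum_image (erase_inj_on r H)]; rfl
    rw [e1]
    unfold E
    refine Finset.sum_le_sum_of_subset_of_nonneg ?_ fun S _ _ => Finset.prod_nonneg fun b _ => hx b
    intro τ hτ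
    rw [mem_image] at hτ
    obtain ⟨e, he, rfl⟩ := hτ
    rw [mem_filter] at he
    rw [mem_powersetCard]
    refine ⟨Finset.erase_subset_erase _ (Finset.subset_univ _), ?_⟩
    rw [Finset.card_erase_of_mem he.2, h8 e he.1]
  -- second degree bound
  have hDu : D H x u ≤ x r * E x 6 V + Λ := by
    have e0 : D H x u = ∑ e ∈ H.filter (fun e => u ∈ e ∧ r ∈ e), ∏ b ∈ e.erase u, x b +
        ∑ e ∈ H.filter (fun e => u ∈ e ∧ r ∉ e), ∏ b ∈ e.erase u, x b := by
      unfold D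
      rw [← Finset.sum_filter_add_sum_filter_not (H.filter (fun e => u ∈ e)) (fun e => r ∈ e)]
      rw [Finset.filter_filter, Finset.filter_filter]
    have e2 : ∑ e ∈ H.filter (fun e => u ∈ e ∧ r ∉ e), ∏ b ∈ e.erase u, x b = Λ := by
      rw [hΛdef, hL, Finset.sum_image]
      intro b hb c hc hbc
      simp only [coe_filter, Set.mem_ofPred_eq] at hb hc
      have hab' : b.erase u = c.erase u := hbc
      rw [← Finset.insert_erase hb.2.1, ← Finset.insert_erase hc.2.1, hab']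
    have e3 : ∑ e ∈ H.filter (fun e => u ∈ e ∧ r ∈ e), ∏ b ∈ e.erase u, x b ≤ x r * E x 6 V := by
      have e4 : ∀ e ∈ H.filter (fun e => u ∈ e ∧ r ∈ e), ∏ b ∈ e.erase u, x b =
          x r * ∏ b ∈ (e.erase u).erase r, x b := by
        intro e he
        rw [mem_filter] at he
        rw [Finset.mul_prod_erase]
        exact Finset.mem_erase.2 ⟨hur.symm, he.2.2⟩
      rw [Finset.sum_congr rfl e4, ← Finset.mul_sum]
      refine mul_le_mul_of_nonneg_left ?_ (hx r)
      have e5 : ∑ e ∈ H.filter (fun e => u ∈ e ∧ r ∈ e), ∏ b ∈ (e.erase u).erase r, x b =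
          ∑ τ ∈ (H.filter (fun e => u ∈ e ∧ r ∈ e)).image (fun e => (e.erase u).erase r),
            ∏ b ∈ τ, x b := by
        rw [Finset.sum_image]
        intro b hb c hc hbc
        simp only [coe_filter, Set.mem_ofPred_eq] at hb hc
        have hab' : (b.erase u).erase r = (c.erase u).erase r := hbc
        have hb' : r ∈ b.erase u := Finset.mem_erase.2 ⟨hur.symm, hb.2.2⟩
        have hc' : r ∈ c.erase u := Finset.mem_erase.2 ⟨hur.symm, hc.2.2⟩
        rw [← Finset.insert_erase hb.2.1, ← Finset.insert_erase hc.2.1,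
          ← Finset.insert_erase hb', ← Finset.insert_erase hc', hab']
      rw [e5]
      unfold E
      refine Finset.sum_le_sum_of_subset_of_nonneg ?_ fun S _ _ =>
        Finset.prod_nonneg fun b _ => hx b
      intro τ hτ
      rw [mem_image] at hτ
      obtain ⟨e, he, rfl⟩ := hτ
      rw [mem_filter] at he
      rw [mem_powersetCard]
      have hc' : r ∈ e.erase u := Finset.mem_erase.2 ⟨hur.symm, he.2.2⟩
      refine ⟨Finset.erase_subset_erase _ (Finset.subset_univ _), ?_⟩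
      rw [Finset.card_erase_of_mem hc', Finset.card_erase_of_mem he.2.1, h8 e he.1]
    rw [e0, e2]
    linarith
  have hE7 := E_seven hx V
  have hE6 := E_six hx V
  rw [← ha, ← hq] at hE7 hE6
  have hz0 : 0 ≤ a ^ 2 - q := by
    have := sum_sq_le hx V
    rw [← ha, ← hq] at this
    linarith
  have hq0 : 0 ≤ q := Finset.sum_nonneg fun i _ => sq_nonneg _
  have ha0 : 0 < a := by
    have : x u ≤ a := Finset.single_le_sum (f := x) (fun i _ => hx i)
      (Finset.mem_erase.2 ⟨hur, mem_univ u⟩)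
    linarith
  have ha1 : a < 1 := by linarith
  have hxr' : x r = 1 - a := by linarith
  refine num_contra (Λ := Λ) ha0 ha1 hz0 (by linarith) hY0 hYa (by linarith) ?_ ?_ ?_
  · linarith
  · linarith
  · have e1 := mul_le_mul_of_nonneg_left hE6 (hx r)
    rw [hxr'] at hDu e1
    linarith

end Run7.h42.WO
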