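import Mathlib

/-!
Elementary symmetric sums over finite sets: flag counting, a Maclaurin step and a two-step bound.
-/

set_option autoImplicit false
set_option linter.unusedSectionVars false

open Finset

namespace Run7.h42.WO

variable {α : Type*} [DecidableEq α]

/-- elementary symmetric sum of degree `j` of the weights `x` on `V` -/
def E (x : α → ℝ) (j : ℕ) (V : Finset α) : ℝ := ∑ S ∈ V.powersetCard j, ∏ a ∈ S, x a

lemma E_nonneg {x : α → ℝ} (hx : ∀ a, 0 ≤ x a) (j : ℕ) (V : Finset α) : 0 ≤ E x j V :=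
  Finset.sum_nonneg fun _ _ => Finset.prod_nonneg fun a _ => hx a

lemma E_zero (x : α → ℝ) (V : Finset α) : E x 0 V = 1 := by simp [E]

lemma E_mono {x : α → ℝ} (hx : ∀ a, 0 ≤ x a) (j : ℕ) {V W : Finset α} (h : V ⊆ W) :
    E x j V ≤ E x j W := by
  unfold E
  exact Finset.sum_le_sum_of_subset_of_nonneg (Finset.powersetCard_mono h)
    fun S _ _ => Finset.prod_nonneg fun a _ => hx a

lemma flag (j : ℕ) (V : Finset α) (K : Finset α → α → ℝ) :
    ∑ S ∈ V.powersetCard (j + 1), ∑ i ∈ S, K (S.erase i) i =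
      ∑ R ∈ V.powersetCard j, ∑ i ∈ V \ R, K R i := by
  rw [Finset.sum_sigma', Finset.sum_sigma']
  refine Finset.sum_bij' (fun p _ => ⟨p.1.erase p.2, p.2⟩) (fun p _ => ⟨insert p.2 p.1, p.2⟩)
    ?_ ?_ ?_ ?_ ?_
  · rintro ⟨S, i⟩ h
    simp only [mem_sigma, mem_powersetCard, mem_sdiff] at h ⊢
    obtain ⟨⟨h1, h2⟩, h3⟩ := h
    refine ⟨⟨(Finset.erase_subset _ _).trans h1, ?_⟩, h1 h3, by simp⟩
    rw [Finset.card_erase_of_mem h3, h2]; rfl
  · rintro ⟨R, i⟩ h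
    simp only [mem_sigma, mem_powersetCard, mem_sdiff] at h ⊢
    obtain ⟨⟨h1, h2⟩, h3, h4⟩ := h
    refine ⟨⟨?_, ?_⟩, by simp⟩
    · intro a ha
      rcases Finset.mem_insert.1 ha with rfl | ha
      · exact h3
      · exact h1 ha
    · rw [Finset.card_insert_of_notMem h4, h2]
  · rintro ⟨S, i⟩ h
    simp only [mem_sigma, mem_powersetCard] at h
    simp [Finset.insert_erase h.2]
  · rintro ⟨R, i⟩ h
    simp only [mem_sigma, mem_powersetCard, mem_sdiff] at h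
    simp [Finset.erase_insert h.2.2]
  · rintro ⟨S, i⟩ _
    rfl

/-- `(j+1) e_{j+1} = ∑_R x^R ∑_{i ∉ R} x_i` -/
lemma E_succ (x : α → ℝ) (j : ℕ) (V : Finset α) :
    ((j : ℝ) + 1) * E x (j + 1) V =
      ∑ R ∈ V.powersetCard j, (∏ a ∈ R, x a) * ∑ i ∈ V \ R, x i := by
  have h := flag j V (fun R i => (∏ a ∈ R, x a) * x i)
  simp only [← Finset.mul_sum] at h
  rw [← h, E, Finset.mul_sum]
  refine Finset.sum_congr rfl fun S hS => ?_
  rw [mem_powersetCard] at hS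
  have : ∀ i ∈ S, (∏ a ∈ S.erase i, x a) * x i = ∏ a ∈ S, x a := fun i hi =>
    Finset.prod_erase_mul _ _ hi
  rw [Finset.sum_congr rfl this, Finset.sum_const, hS.2]
  simp

/-- `(j+1)(j+2) e_{j+2} = ∑_R x^R ∑_{i ∉ R} x_i ∑_{l ∉ R ∪ i} x_l` -/
lemma E_succ_succ (x : α → ℝ) (j : ℕ) (V : Finset α) :
    ((j : ℝ) + 1) * ((j : ℝ) + 2) * E x (j + 2) V =
      ∑ R ∈ V.powersetCard j, (∏ a ∈ R, x a) * ∑ i ∈ V \ R, x i * ∑ l ∈ V \ insert i R, x l := by
  have h1 := E_succ x (j + 1) V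
  have h := flag j V (fun R i => (∏ a ∈ R, x a) * (x i * ∑ l ∈ V \ insert i R, x l))
  simp only [← Finset.mul_sum] at h
  rw [← h]
  have e : ((j : ℝ) + 1) * ((j : ℝ) + 2) * E x (j + 2) V =
      ((j : ℝ) + 1) * (((j + 1 : ℕ) : ℝ) + 1) * E x (j + 1 + 1) V := by push_cast; ring
  rw [e, mul_assoc, h1, Finset.mul_sum]
  refine Finset.sum_congr rfl fun S hS => ?_
  rw [mem_powersetCard] at hS
  have : ∀ i ∈ S, (∏ a ∈ S.erase i, x a) * (x i * ∑ l ∈ V \ insert i (S.erase i), x l) =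
      (∏ a ∈ S, x a) * ∑ l ∈ V \ S, x l := fun i hi => by
    rw [Finset.insert_erase hi, ← mul_assoc, Finset.prod_erase_mul _ _ hi]
  rw [Finset.sum_congr rfl this, Finset.sum_const, hS.2]
  simp

/-- the two-step bound `(j+1)(j+2) e_{j+2} ≤ (e_1^2 - p_2) e_j` -/
lemma two_step {x : α → ℝ} (hx : ∀ a, 0 ≤ x a) (j : ℕ) (V : Finset α) :
    ((j : ℝ) + 1) * ((j : ℝ) + 2) * E x (j + 2) V ≤
      ((∑ i ∈ V, x i) ^ 2 - ∑ i ∈ V, x i ^ 2) * E x j V := by
  rw [E_succ_succ, E, Finset.mul_sum]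
  refine Finset.sum_le_sum fun R hR => ?_
  rw [mul_comm]
  refine mul_le_mul_of_nonneg_right ?_ (Finset.prod_nonneg fun a _ => hx a)
  have e : (∑ i ∈ V, x i) ^ 2 - ∑ i ∈ V, x i ^ 2 = ∑ i ∈ V, x i * ∑ l ∈ V.erase i, x l := by
    rw [sq, Finset.sum_mul, ← Finset.sum_sub_distrib]
    refine Finset.sum_congr rfl fun i hi => ?_
    rw [← Finset.add_sum_erase V x hi]; ring
  rw [e]
  calc ∑ i ∈ V \ R, x i * ∑ l ∈ V \ insert i R, x l
      ≤ ∑ i ∈ V \ R, x i * ∑ l ∈ V.erase i, x l := by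
        refine Finset.sum_le_sum fun i _ => mul_le_mul_of_nonneg_left ?_ (hx i)
        refine Finset.sum_le_sum_of_subset_of_nonneg ?_ fun l _ _ => hx l
        intro l hl
        simp only [mem_sdiff, mem_insert, not_or] at hl
        exact Finset.mem_erase.2 ⟨hl.2.1, hl.1⟩
    _ ≤ _ := by
        refine Finset.sum_le_sum_of_subset_of_nonneg Finset.sdiff_subset fun i _ _ => ?_
        exact mul_nonneg (hx i) (Finset.sum_nonneg fun l _ => hx l)

/-- a Maclaurin step for at most `N` weights -/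
lemma maclaurin_step {x : α → ℝ} (hx : ∀ a, 0 ≤ x a) (j N : ℕ) (V : Finset α) (hN : V.card ≤ N) :
    (N : ℝ) * ((j : ℝ) + 1) * E x (j + 1) V ≤ ((N : ℝ) - j) * (∑ i ∈ V, x i) * E x j V := by
  rcases Nat.eq_zero_or_pos j with rfl | hj
  · have h := E_succ x 0 V
    simp at h
    rw [E_zero]
    simp only [Nat.cast_zero, zero_add, mul_one, sub_zero]
    rw [h]
  obtain ⟨j, rfl⟩ : ∃ i, j = i + 1 := ⟨j - 1, by omega⟩
  -- the repeated part
  set R : ℝ := ∑ S ∈ V.powersetCard (j + 1), ∑ i ∈ S, (∏ a ∈ S.erase i, x a) * x i ^ 2 with hR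
  have h1 : (∑ i ∈ V, x i) * E x (j + 1) V =
      (((j + 1 : ℕ) : ℝ) + 1) * E x (j + 1 + 1) V + R := by
    rw [E_succ, hR, ← Finset.sum_add_distrib, E, Finset.mul_sum]
    refine Finset.sum_congr rfl fun S hS => ?_
    rw [mem_powersetCard] at hS
    have e1 : ∀ i ∈ S, (∏ a ∈ S.erase i, x a) * x i ^ 2 = (∏ a ∈ S, x a) * x i := fun i hi => by
      rw [sq, ← mul_assoc, Finset.prod_erase_mul _ _ hi]
    rw [Finset.sum_congr rfl e1, ← Finset.mul_sum, ← mul_add, Finset.sum_sdiff hS.1, mul_comm]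
  have h2 := E_succ_succ x j V
  have h3 := flag j V (fun R i => (∏ a ∈ R, x a) * x i ^ 2)
  rw [← hR] at h3
  simp only [← Finset.mul_sum] at h3
  have h4 : ((j : ℝ) + 1) * ((j : ℝ) + 2) * E x (j + 2) V ≤ ((N : ℝ) - ((j : ℝ) + 1)) * R := by
    rw [h2, h3, Finset.mul_sum]
    refine Finset.sum_le_sum fun S hS => ?_
    rw [mem_powersetCard] at hS
    rw [mul_left_comm]
    refine mul_le_mul_of_nonneg_left ?_ (Finset.prod_nonneg fun a _ => hx a)
    have e1 : ∑ i ∈ V \ S, x i * ∑ l ∈ V \ insert i S, x l =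
        (∑ i ∈ V \ S, x i) ^ 2 - ∑ i ∈ V \ S, x i ^ 2 := by
      rw [sq, Finset.sum_mul, ← Finset.sum_sub_distrib]
      refine Finset.sum_congr rfl fun i hi => ?_
      have e2 : V \ insert i S = (V \ S).erase i := by
        ext a; simp only [mem_sdiff, mem_insert, mem_erase, not_or]; tauto
      rw [e2, ← Finset.add_sum_erase (V \ S) x hi]; ring
    rw [e1]
    have e3 := sq_sum_le_card_mul_sum_sq (s := V \ S) (f := x)
    have e4 : ((V \ S).card : ℝ) = (V.card : ℝ) - j := by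
      rw [Finset.card_sdiff_of_subset hS.1, hS.2, Nat.cast_sub]
      rw [← hS.2]; exact Finset.card_le_card hS.1
    have e5 : (V.card : ℝ) ≤ N := by exact_mod_cast hN
    have e6 : 0 ≤ ∑ i ∈ V \ S, x i ^ 2 := Finset.sum_nonneg fun i _ => sq_nonneg _
    rw [e4] at e3
    nlinarith
  have h5 : (E x (j + 1 + 1) V) = E x (j + 2) V := rfl
  push_cast at h1 ⊢
  rw [h5] at h1 ⊢
  rw [mul_assoc (((N : ℝ) - ((j : ℝ) + 1))), h1]
  nlinarith

end Run7.h42.WO
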