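import Pool.Agent.Run7.h42.WO.Sym

/-!
Growth sequences in a uniform family and the top-weights bound.
-/

set_option autoImplicit false
set_option linter.unusedSectionVars false

open Finset

namespace Run7.h42.WO

variable {α : Type*} [DecidableEq α]

/-- `L` has a growth sequence of length `s`: members `e 0, ..., e (s-1)` such that each `e j` has
an element `c j` that lies in no earlier member. -/
def GS (L : Finset (Finset α)) (s : ℕ) : Prop :=
  ∃ (e : ℕ → Finset α) (c : ℕ → α), (∀ j < s, e j ∈ L ∧ c j ∈ e j) ∧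
    ∀ j < s, ∀ l < j, c j ∉ e l

lemma GS_mono {L : Finset (Finset α)} {s t : ℕ} (h : GS L t) (hst : s ≤ t) : GS L s := by
  obtain ⟨e, c, h1, h2⟩ := h
  exact ⟨e, c, fun j hj => h1 j (by omega), fun j hj => h2 j (by omega)⟩

lemma GS_snoc {L L' : Finset (Finset α)} {s : ℕ} {v : α} {τ : Finset α} (h : GS L' s)
    (hL : L' ⊆ L) (hτ : τ ∈ L) (hv : v ∈ τ) (hn : ∀ e ∈ L', v ∉ e) : GS L (s + 1) := by
  obtain ⟨e, c, h1, h2⟩ := h
  refine ⟨fun j => if j = s then τ else e j, fun j => if j = s then v else c j, ?_, ?_⟩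
  · intro j hj
    by_cases hjs : j = s
    · simp only [hjs, if_true]; exact ⟨hτ, hv⟩
    · simp only [hjs, if_false]
      exact ⟨hL (h1 j (by omega)).1, (h1 j (by omega)).2⟩
  · intro j hj l hl
    have hls : l ≠ s := by omega
    simp only [hls, if_false]
    by_cases hjs : j = s
    · simp only [hjs, if_true]; exact hn _ (h1 l (by omega)).1
    · simp only [hjs, if_false]
      exact h2 j (by omega) l hl

lemma GS_link {L L' : Finset (Finset α)} {s : ℕ} {v : α} (h : GS L' s)
    (hL : ∀ τ ∈ L', v ∉ τ ∧ insert v τ ∈ L) : GS L s := by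
  obtain ⟨e, c, h1, h2⟩ := h
  refine ⟨fun j => insert v (e j), c, ?_, ?_⟩
  · intro j hj
    exact ⟨(hL _ (h1 j hj).1).2, Finset.mem_insert_of_mem (h1 j hj).2⟩
  · intro j hj l hl
    rw [Finset.mem_insert, not_or]
    refine ⟨?_, h2 j hj l hl⟩
    rintro rfl
    exact (hL _ (h1 j hj).1).1 (h1 j hj).2

lemma top_bound {x : α → ℝ} (hx : ∀ a, 0 ≤ x a) :
    ∀ (n : ℕ) (V W : Finset α), V.card = n → W ⊆ V → (∀ w ∈ W, ∀ v ∈ V, v ∉ W → x v ≤ x w) →
      ∀ (j M : ℕ) (L : Finset (Finset α)), (∀ τ ∈ L, τ ⊆ V ∧ τ.card = j) → ¬ GS L (M + 1) →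
        (M + j ≤ W.card + 1 ∨ W = V) → ∑ τ ∈ L, ∏ a ∈ τ, x a ≤ E x j W := by
  have hsub : ∀ (j : ℕ) (V : Finset α) (L : Finset (Finset α)), (∀ τ ∈ L, τ ⊆ V ∧ τ.card = j) →
      ∑ τ ∈ L, ∏ a ∈ τ, x a ≤ E x j V := by
    intro j V L hL
    unfold E
    refine Finset.sum_le_sum_of_subset_of_nonneg ?_ fun S _ _ => Finset.prod_nonneg fun a _ => hx a
    intro τ hτ
    rw [mem_powersetCard]
    exact hL τ hτ
  intro n
  induction n with
  | zero =>
    intro V W hV hW _ j M L hL _ _
    have hV0 : V = ∅ := Finset.card_eq_zero.1 hV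
    have hWV : W = V := by rw [hV0] at hW ⊢; exact Finset.subset_empty.1 hW
    rw [hWV]
    exact hsub j V L hL
  | succ n ih =>
    intro V W hV hW htop j M L hL hGS hc
    by_cases hWV : W = V
    · rw [hWV]; exact hsub j V L hL
    have hc' : M + j ≤ W.card + 1 := by tauto
    obtain ⟨v, hvV, hvW⟩ : ∃ v ∈ V, v ∉ W := by
      by_contra hcon
      push Not at hcon
      exact hWV (Finset.Subset.antisymm hW hcon)
    have hV' : (V.erase v).card = n := by rw [Finset.card_erase_of_mem hvV, hV]; rfl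
    by_cases hLv : ∃ τ ∈ L, v ∈ τ
    · obtain ⟨τ₀, hτ₀, hvτ₀⟩ := hLv
      have hj : 1 ≤ j := by
        rw [← (hL τ₀ hτ₀).2]; exact Finset.card_pos.2 ⟨v, hvτ₀⟩
      have hM : 1 ≤ M := by
        by_contra hcon
        apply hGS
        have : M = 0 := by omega
        rw [this]
        refine ⟨fun _ => τ₀, fun _ => v, fun _ _ => ⟨hτ₀, hvτ₀⟩, fun j hj l hl => by omega⟩
      obtain ⟨j, rfl⟩ : ∃ i, j = i + 1 := ⟨j - 1, by omega⟩
      obtain ⟨M, rfl⟩ : ∃ i, M = i + 1 := ⟨M - 1, by omega⟩
      have hWne : W.Nonempty := by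
        rw [← Finset.card_pos]; omega
      obtain ⟨w, hwW, hwmin⟩ := Finset.exists_min_image W x hWne
      set W' := W.erase w with hW'
      have hW'c : W'.card + 1 = W.card := Finset.card_erase_add_one hwW
      have hW'V : W' ⊆ V.erase v := by
        intro a ha
        rw [hW', mem_erase] at ha
        rw [mem_erase]
        refine ⟨?_, hW ha.2⟩
        rintro rfl
        exact hvW ha.2
      have htop' : ∀ a ∈ W', ∀ b ∈ V.erase v, b ∉ W' → x b ≤ x a := by
        intro a ha b hb hbW
        rw [hW', mem_erase] at ha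
        rw [hW', mem_erase, not_and_or, not_not] at hbW
        rcases hbW with rfl | hbW
        · exact hwmin a ha.2
        · exact htop a ha.2 b (Finset.mem_of_mem_erase hb) hbW
      set L₁ := L.filter (fun τ => v ∉ τ) with hL₁
      set L₂ := (L.filter (fun τ => v ∈ τ)).image (fun τ => τ.erase v) with hL₂
      have hsplit : ∑ τ ∈ L, ∏ a ∈ τ, x a =
          ∑ τ ∈ L₁, ∏ a ∈ τ, x a + x v * ∑ τ ∈ L₂, ∏ a ∈ τ, x a := by
        rw [← Finset.sum_filter_add_sum_filter_not L (fun τ => v ∈ τ), add_comm, ← hL₁]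
        congr 1
        rw [hL₂, Finset.sum_image, Finset.mul_sum]
        · refine Finset.sum_congr rfl fun τ hτ => ?_
          rw [mem_filter] at hτ
          exact (Finset.mul_prod_erase _ _ hτ.2).symm
        · intro a ha b hb hab
          simp only [coe_filter, Set.mem_setOf_eq] at ha hb
          have hab' : a.erase v = b.erase v := hab
          rw [← Finset.insert_erase ha.2, ← Finset.insert_erase hb.2, hab']
      have hL₁' : ∀ τ ∈ L₁, τ ⊆ V.erase v ∧ τ.card = j + 1 := by
        intro τ hτ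
        rw [hL₁, mem_filter] at hτ
        refine ⟨fun a ha => mem_erase.2 ⟨?_, (hL τ hτ.1).1 ha⟩, (hL τ hτ.1).2⟩
        rintro rfl
        exact hτ.2 ha
      have hL₂' : ∀ τ ∈ L₂, τ ⊆ V.erase v ∧ τ.card = j := by
        intro τ hτ
        rw [hL₂, mem_image] at hτ
        obtain ⟨σ, hσ, rfl⟩ := hτ
        rw [mem_filter] at hσ
        refine ⟨Finset.erase_subset_erase _ (hL σ hσ.1).1, ?_⟩
        rw [Finset.card_erase_of_mem hσ.2, (hL σ hσ.1).2]; rfl
      have hG₁ : ¬ GS L₁ (M + 1) := by
        intro hG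
        exact hGS (GS_snoc hG (Finset.filter_subset _ _) hτ₀ hvτ₀ fun e he => (mem_filter.1 he).2)
      have hG₂ : ¬ GS L₂ (M + 1 + 1) := by
        intro hG
        refine hGS (GS_link (v := v) hG ?_)
        intro τ hτ
        rw [hL₂, mem_image] at hτ
        obtain ⟨σ, hσ, rfl⟩ := hτ
        rw [mem_filter] at hσ
        refine ⟨Finset.notMem_erase _ _, ?_⟩
        rw [Finset.insert_erase hσ.2]; exact hσ.1
      have b₁ := ih (V.erase v) W' hV' hW'V htop' (j + 1) M L₁ hL₁' hG₁ (Or.inl (by omega))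
      have b₂ := ih (V.erase v) W' hV' hW'V htop' j (M + 1) L₂ hL₂' hG₂ (Or.inl (by omega))
      have hxv : x v ≤ x w := htop w hwW v hvV hvW
      have hE : E x (j + 1) W = E x (j + 1) W' + x w * E x j W' := by
        have hw' : w ∉ W' := Finset.notMem_erase _ _
        have hWi : W = insert w W' := (Finset.insert_erase hwW).symm
        rw [hWi]
        unfold E
        rw [Finset.powersetCard_succ_insert hw', Finset.sum_union, Finset.sum_image, Finset.mul_sum]
        · congr 1
          refine Finset.sum_congr rfl fun S hS => ?_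
          rw [Finset.prod_insert]
          intro h
          exact hw' ((mem_powersetCard.1 hS).1 h)
        · intro a ha b hb hab
          have ha' : w ∉ a := fun h => hw' ((mem_powersetCard.1 ha).1 h)
          have hb' : w ∉ b := fun h => hw' ((mem_powersetCard.1 hb).1 h)
          have hab' : insert w a = insert w b := hab
          rw [← Finset.erase_insert ha', ← Finset.erase_insert hb', hab']
        · rw [Finset.disjoint_left]
          intro a ha hb
          rw [mem_image] at hb
          obtain ⟨S, _, rfl⟩ := hb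
          exact hw' ((mem_powersetCard.1 ha).1 (Finset.mem_insert_self _ _))
      rw [hsplit, hE]
      have h3 : x v * ∑ τ ∈ L₂, ∏ a ∈ τ, x a ≤ x w * E x j W' :=
        mul_le_mul hxv b₂ (Finset.sum_nonneg fun _ _ => Finset.prod_nonneg fun a _ => hx a) (hx w)
      linarith
    · push Not at hLv
      refine ih (V.erase v) W hV' ?_ ?_ j M L ?_ hGS (Or.inl hc')
      · intro a ha
        rw [mem_erase]
        refine ⟨?_, hW ha⟩
        rintro rfl
        exact hvW ha
      · intro a ha b hb hbW
        exact htop a ha b (Finset.mem_of_mem_erase hb) hbW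
      · intro τ hτ
        refine ⟨fun a ha => mem_erase.2 ⟨?_, (hL τ hτ).1 ha⟩, (hL τ hτ).2⟩
        rintro rfl
        exact hLv τ hτ ha

/-- every finite set has a subset of at most `N` elements carrying the largest weights, of size
exactly `N` unless it is everything -/
lemma exists_top (x : α → ℝ) (V : Finset α) (N : ℕ) :
    ∃ W ⊆ V, W.card ≤ N ∧ (W.card = N ∨ W = V) ∧ ∀ w ∈ W, ∀ v ∈ V, v ∉ W → x v ≤ x w := by
  induction N with
  | zero => exact ⟨∅, by simp, by simp, by simp, by simp⟩
  | succ N ih =>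
    obtain ⟨W, hWV, hc, h1, h2⟩ := ih
    by_cases hWV' : W = V
    · exact ⟨W, hWV, by omega, Or.inr hWV', h2⟩
    have hne : (V \ W).Nonempty := by
      rw [Finset.nonempty_iff_ne_empty, Ne, Finset.sdiff_eq_empty_iff_subset]
      intro h
      exact hWV' (Finset.Subset.antisymm hWV h)
    obtain ⟨v, hv, hmax⟩ := Finset.exists_max_image (V \ W) x hne
    rw [mem_sdiff] at hv
    have hcN : W.card = N := by tauto
    refine ⟨insert v W, ?_, ?_, ?_, ?_⟩
    · intro a ha
      rcases mem_insert.1 ha with rfl | ha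
      · exact hv.1
      · exact hWV ha
    · rw [Finset.card_insert_of_notMem hv.2, hcN]
    · left; rw [Finset.card_insert_of_notMem hv.2, hcN]
    · intro w hw a ha haW
      rw [mem_insert, not_or] at haW
      rcases mem_insert.1 hw with rfl | hw
      · exact hmax a (mem_sdiff.2 ⟨ha, haW.2⟩)
      · exact h2 w hw a ha haW.2

end Run7.h42.WO
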