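import Pool.Agent.Run7.h42.WO.Ex
import Pool.Agent.H362R2.CM.BoxCount

/-!
Supersaturation and blow-up: if `F` maps homomorphically to every dense `k`-graph on `m₀`
vertices, then every slightly denser large `k`-graph contains `F`.
-/

set_option autoImplicit false
set_option linter.unusedSectionVars false

open Finset

namespace Run7.h42.WO

/-- number of maps sending `e` onto `A` -/
lemma card_maps_onto {m₀ n k : ℕ} (e : Finset (Fin m₀)) (he : e.card = k) (A : Finset (Fin n))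
    (hA : A.card = k) :
    k.factorial * n ^ (m₀ - k) ≤
      ((univ : Finset (Fin m₀ → Fin n)).filter (fun φ => e.image φ = A)).card := by
  classical
  set Φ : (↥e ≃ ↥A) × ({x : Fin m₀ // x ∉ e} → Fin n) → (Fin m₀ → Fin n) :=
    fun p x => if hx : x ∈ e then (p.1 ⟨x, hx⟩ : Fin n) else p.2 ⟨x, hx⟩ with hΦ
  have hinj : Function.Injective Φ := by
    rintro ⟨σ, h⟩ ⟨σ', h'⟩ heq
    have e1 : σ = σ' := by
      ext ⟨x, hx⟩
      have := congrFun heq x
      simp only [hΦ, dif_pos hx] at this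
      exact congrArg Fin.val this
    have e2 : h = h' := by
      funext ⟨x, hx⟩
      have := congrFun heq x
      simp only [hΦ, dif_neg hx] at this
      exact this
    rw [e1, e2]
  have hsub : (univ : Finset ((↥e ≃ ↥A) × ({x : Fin m₀ // x ∉ e} → Fin n))).image Φ ⊆
      (univ : Finset (Fin m₀ → Fin n)).filter (fun φ => e.image φ = A) := by
    intro φ hφ
    simp only [mem_image, mem_univ, true_and] at hφ
    obtain ⟨⟨σ, h⟩, rfl⟩ := hφ
    rw [mem_filter]
    refine ⟨mem_univ _, ?_⟩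
    ext y
    simp only [mem_image]
    constructor
    · rintro ⟨x, hx, rfl⟩
      simp only [hΦ, dif_pos hx]
      exact (σ ⟨x, hx⟩).2
    · intro hy
      obtain ⟨x, hx⟩ := σ.surjective ⟨y, hy⟩
      refine ⟨x, x.2, ?_⟩
      simp only [hΦ, dif_pos x.2]
      rw [Subtype.coe_eta, hx]
  have h1 := Finset.card_le_card hsub
  rw [Finset.card_image_of_injective _ hinj, card_univ, Fintype.card_prod] at h1
  have heA : e.card = A.card := by rw [he, hA]
  rw [Fintype.card_equiv (Finset.equivOfCardEq heA), Fintype.card_fun, Fintype.card_fin,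
    Fintype.card_coe, he] at h1
  have h2 : Fintype.card {x : Fin m₀ // x ∉ e} = m₀ - k := by
    rw [Fintype.card_subtype]
    have : (univ : Finset (Fin m₀)).filter (fun x => x ∉ e) = eᶜ := by ext x; simp
    rw [this, Finset.card_compl, Fintype.card_fin, he]
  rw [h2] at h1
  exact h1

/-- the pull-back of a `k`-graph under a map -/
def pull {m₀ n : ℕ} (k : ℕ) (G : Finset (Finset (Fin n))) (φ : Fin m₀ → Fin n) :
    Finset (Finset (Fin m₀)) :=
  (powersetCard k univ).filter (fun e => e.image φ ∈ G)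

lemma sum_pull {m₀ n k : ℕ} (G : Finset (Finset (Fin n))) (hG : ∀ A ∈ G, A.card = k) :
    m₀.choose k * (G.card * (k.factorial * n ^ (m₀ - k))) ≤
      ∑ φ : Fin m₀ → Fin n, (pull k G φ).card := by
  classical
  have h1 : ∑ φ : Fin m₀ → Fin n, (pull k G φ).card =
      ∑ e ∈ powersetCard k (univ : Finset (Fin m₀)),
        ((univ : Finset (Fin m₀ → Fin n)).filter (fun φ => e.image φ ∈ G)).card := by
    simp only [pull, Finset.card_filter]
    exact Finset.sum_comm
  rw [h1]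
  have h2 : (powersetCard k (univ : Finset (Fin m₀))).card = m₀.choose k := by
    rw [card_powersetCard, card_univ, Fintype.card_fin]
  rw [← h2, ← smul_eq_mul]
  refine Finset.card_nsmul_le_sum _ _ _ fun e he => ?_
  rw [mem_powersetCard] at he
  have h3 : ((univ : Finset (Fin m₀ → Fin n)).filter (fun φ => e.image φ ∈ G)).card =
      ∑ A ∈ G, (((univ : Finset (Fin m₀ → Fin n)).filter (fun φ => e.image φ ∈ G)).filter
        (fun φ => e.image φ = A)).card :=
    Finset.card_eq_sum_card_fiberwise fun φ hφ => (mem_filter.1 hφ).2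
  rw [h3, ← smul_eq_mul G.card]
  refine Finset.card_nsmul_le_sum _ _ _ fun A hA => ?_
  have h4 : ((univ : Finset (Fin m₀ → Fin n)).filter (fun φ => e.image φ ∈ G)).filter
        (fun φ => e.image φ = A) = (univ : Finset (Fin m₀ → Fin n)).filter (fun φ => e.image φ = A) := by
    ext φ
    simp only [mem_filter, mem_univ, true_and]
    constructor
    · exact fun h => h.2
    · exact fun h => ⟨by rw [h]; exact hA, h⟩
  rw [h4]
  exact card_maps_onto e he.2 A (hG A hA)

lemma factorial_choose_lower {n k : ℕ} (hkn : k ≤ n) (hn : 0 < n) :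
    (n : ℝ) ^ k * (1 - (k : ℝ) ^ 2 / n) ≤ (k.factorial : ℝ) * (n.choose k : ℝ) := by
  have h1 : (n + 1 - k) ^ k ≤ n.descFactorial k := Nat.pow_sub_le_descFactorial n k
  rw [Nat.descFactorial_eq_factorial_mul_choose] at h1
  have hn0 : (0 : ℝ) < n := by exact_mod_cast hn
  have hkn' : (k : ℝ) ≤ n := by exact_mod_cast hkn
  have h2 : ((n : ℝ) - k) ^ k ≤ (k.factorial : ℝ) * (n.choose k : ℝ) := by
    have h3 : (((n + 1 - k : ℕ) : ℝ)) ^ k ≤ (k.factorial : ℝ) * (n.choose k : ℝ) := by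
      exact_mod_cast h1
    have h4 : ((n : ℝ) - k) ≤ ((n + 1 - k : ℕ) : ℝ) := by
      rw [Nat.cast_sub (by omega)]; push_cast; linarith
    exact (pow_le_pow_left₀ (by linarith) h4 k).trans h3
  refine le_trans ?_ h2
  have h5 : (-2 : ℝ) ≤ -((k : ℝ) / n) := by
    have : (k : ℝ) / n ≤ 1 := by rw [div_le_one hn0]; exact hkn'
    linarith
  have h6 := one_add_mul_le_pow h5 k
  have h7 := mul_le_mul_of_nonneg_left h6 (by positivity : 0 ≤ (n : ℝ) ^ k)
  rw [← mul_pow] at h7
  have h8 : (n : ℝ) * (1 + -((k : ℝ) / n)) = n - k := by field_simp; ring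
  rw [h8] at h7
  refine le_trans (le_of_eq ?_) h7
  ring

/-- maps with a prescribed coincidence are rare -/
lemma coincidence {m₀ m n : ℕ} (i i' : Fin m₀) (j j' : Fin m) (h : (i, j) ≠ (i', j')) :
    ((univ : Finset (Fin m₀ → Fin m → Fin n)).filter (fun A => A i j = A i' j')).card * n ≤
      n ^ (m₀ * m) := by
  classical
  set S := (univ : Finset (Fin m₀ → Fin m → Fin n)).filter (fun A => A i j = A i' j') with hS
  set Ψ : (Fin m₀ → Fin m → Fin n) × Fin n → (Fin m₀ × Fin m → Fin n) :=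
    fun p => Function.update (Function.uncurry p.1) (i, j) p.2 with hΨ
  have hinj : Set.InjOn Ψ (S ×ˢ (univ : Finset (Fin n)) : Finset _) := by
    rintro ⟨A, x⟩ hA ⟨A', x'⟩ hA' heq
    simp only [coe_product, Set.mem_prod, mem_coe, hS, mem_filter, mem_univ, true_and,
      and_true] at hA hA'
    have e0 : ∀ y, Function.update (Function.uncurry A) (i, j) x y =
        Function.update (Function.uncurry A') (i, j) x' y := fun y => congrFun heq y
    have e1 : x = x' := by
      have := e0 (i, j)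
      simpa using this
    have e2 : ∀ y, y ≠ (i, j) → Function.uncurry A y = Function.uncurry A' y := by
      intro y hy
      have := e0 y
      rwa [Function.update_of_ne hy, Function.update_of_ne hy] at this
    have e3 : A = A' := by
      funext a b
      by_cases hab : (a, b) = (i, j)
      · have h1 : a = i := congrArg Prod.fst hab
        have h2 : b = j := congrArg Prod.snd hab
        subst h1 h2
        rw [hA, hA']
        exact e2 (i', j') h.symm
      · exact e2 (a, b) hab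
    rw [e1, e3]
  have h1 := Finset.card_le_card_of_injOn (s := S ×ˢ (univ : Finset (Fin n)))
    (t := (univ : Finset (Fin m₀ × Fin m → Fin n))) Ψ (fun _ _ => mem_univ _) hinj
  rw [card_product, card_univ, card_univ, Fintype.card_fin, Fintype.card_fun, Fintype.card_prod,
    Fintype.card_fin, Fintype.card_fin, Fintype.card_fin] at h1
  exact h1

lemma mem_boxes_gen {α ι : Type} [Fintype ι] [DecidableEq ι] (V : Finset α) {M : ℕ}
    {B : Finset (Fin M → α)} {A : Fin M → ι → α}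
    (hA : A ∈ Pool.Agent.H362R2.CM.boxes V ι B) (χ : Fin M → ι) :
    (fun i => A i (χ i)) ∈ B := by
  classical
  unfold Pool.Agent.H362R2.CM.boxes at hA
  rw [Finset.mem_filter] at hA
  exact hA.2 χ

lemma mem_boxes {n m M : ℕ} {B : Finset (Fin M → Fin n)} {A : Fin M → Fin m → Fin n}
    (hA : A ∈ Pool.Agent.H362R2.CM.boxes (univ : Finset (Fin n)) (Fin m) B) (χ : Fin M → Fin m) :
    (fun i => A i (χ i)) ∈ B := mem_boxes_gen univ hA χ

/-- a box with distinct representatives gives an embedded copy of `F` -/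
lemma copy_of_box {k m₀ m n : ℕ} (hm : 0 < m) {F : Finset (Finset (Fin m))}
    (hF : ∀ e ∈ F, e.card = k) {H₀ : Finset (Finset (Fin m₀))} (hH₀k : ∀ e ∈ H₀, e.card = k)
    {ψ : Fin m → Fin m₀} (hψ : ∀ e ∈ F, e.image ψ ∈ H₀) {G : Finset (Finset (Fin n))}
    {Wd : Finset (Fin m₀ → Fin n)} (hWd : ∀ φ ∈ Wd, pull k G φ = H₀)
    {A : Fin m₀ → Fin m → Fin n}
    (hA : A ∈ Pool.Agent.H362R2.CM.boxes (univ : Finset (Fin n)) (Fin m) Wd)
    (hAinj : Function.Injective (fun v : Fin m => A (ψ v) v)) :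
    ∃ f : Fin m ↪ Fin n, ∀ e ∈ F, e.map f ∈ G := by
  classical
  refine ⟨⟨fun v => A (ψ v) v, hAinj⟩, fun e he => ?_⟩
  have heH := hψ e he
  have hψinj : Set.InjOn ψ e := by
    rw [← Finset.card_image_iff, hH₀k _ heH, hF e he]
  obtain ⟨χ, hχv⟩ : ∃ χ : Fin m₀ → Fin m, ∀ v ∈ e, χ (ψ v) = v := by
    refine ⟨fun i => if h : ∃ v ∈ e, ψ v = i then h.choose else ⟨0, hm⟩, ?_⟩
    intro v hv
    have h : ∃ w ∈ e, ψ w = ψ v := ⟨v, hv, rfl⟩
    simp only [dif_pos h]
    exact hψinj h.choose_spec.1 hv h.choose_spec.2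
  have hAbox : (fun i => A i (χ i)) ∈ Wd := mem_boxes hA χ
  have hpull := hWd _ hAbox
  rw [← hpull] at heH
  have h1 := (mem_filter.1 heH).2
  rw [Finset.image_image] at h1
  rw [Finset.map_eq_image]
  have h2 : e.image ((fun i => A i (χ i)) ∘ ψ) = e.image (fun v => A (ψ v) v) := by
    refine Finset.image_congr fun v hv => ?_
    simp only [Function.comp]
    rw [hχv v hv]
  rw [h2] at h1
  exact h1

theorem upper {k m₀ m : ℕ} (hkm : k ≤ m₀) (hm : 0 < m) (c δ : ℝ) (hc : 0 ≤ c) (hδ : 0 < δ)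
    (F : Finset (Finset (Fin m))) (hF : ∀ e ∈ F, e.card = k)
    (hhom : ∀ H₀ : Finset (Finset (Fin m₀)), (∀ e ∈ H₀, e.card = k) →
      c * (m₀.choose k : ℝ) ≤ H₀.card → ∃ ψ : Fin m → Fin m₀, ∀ e ∈ F, e.image ψ ∈ H₀) :
    ∃ n₀ : ℕ, ∀ n ≥ n₀, ∀ G : Finset (Finset (Fin n)), (∀ A ∈ G, A.card = k) →
      (c + δ) * (n.choose k : ℝ) ≤ G.card → ∃ f : Fin m ↪ Fin n, ∀ e ∈ F, e.map f ∈ G := by
  classical
  set R : ℝ := (Fintype.card (Finset (Finset (Fin m₀))) : ℝ) with hR
  have hR0 : 0 < R := by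
    rw [hR]; exact_mod_cast Fintype.card_pos
  set c' : ℝ := δ / (2 * R) with hc'
  have hc'0 : 0 < c' := by rw [hc']; positivity
  set c'' : ℝ := c' ^ (m ^ m₀) with hc''
  have hc''0 : 0 < c'' := by rw [hc'']; positivity
  obtain ⟨n₁, hn₁⟩ := exists_nat_ge (2 * (c + δ) * (k : ℝ) ^ 2 / δ)
  obtain ⟨n₂, hn₂⟩ := exists_nat_gt ((m : ℝ) ^ 2 / c'')
  refine ⟨max (max n₁ n₂) (k + 1), fun n hn G hG hGc => ?_⟩
  have hnn₁ : n₁ ≤ n := le_trans (le_trans (le_max_left _ _) (le_max_left _ _)) hn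
  have hnn₂ : n₂ ≤ n := le_trans (le_trans (le_max_right _ _) (le_max_left _ _)) hn
  have hnk : k + 1 ≤ n := le_trans (le_max_right _ _) hn
  have hn0 : (0 : ℝ) < n := by
    have : 0 < n := by omega
    exact_mod_cast this
  have hC0 : (0 : ℝ) < (m₀.choose k : ℝ) := by exact_mod_cast Nat.choose_pos hkm
  -- density of the pull-backs
  have hdens : (c + δ / 2) * (n : ℝ) ^ k ≤ (G.card : ℝ) * k.factorial := by
    have h1 := factorial_choose_lower (n := n) (k := k) (by omega) (by omega)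
    have h2 : (c + δ) * ((n : ℝ) ^ k * (1 - (k : ℝ) ^ 2 / n)) ≤ (G.card : ℝ) * k.factorial := by
      have e1 := mul_le_mul_of_nonneg_left h1 (by linarith : 0 ≤ c + δ)
      have e2 := mul_le_mul_of_nonneg_right hGc (Nat.cast_nonneg (α := ℝ) k.factorial)
      linarith
    refine le_trans ?_ h2
    have h3 : (c + δ) * ((k : ℝ) ^ 2 / n) ≤ δ / 2 := by
      have h4 : (n₁ : ℝ) ≤ n := by exact_mod_cast hnn₁
      have h5 : 2 * (c + δ) * (k : ℝ) ^ 2 / δ ≤ n := hn₁.trans h4
      rw [div_le_iff₀ hδ] at h5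
      rw [mul_div_assoc', div_le_iff₀ hn0]
      linarith
    have h4 : (0 : ℝ) ≤ (n : ℝ) ^ k := by positivity
    have h5 := mul_le_mul_of_nonneg_right h3 h4
    have h6 : (c + δ) * ((n : ℝ) ^ k * (1 - (k : ℝ) ^ 2 / n)) =
        (c + δ) * (n : ℝ) ^ k - (c + δ) * ((k : ℝ) ^ 2 / n) * (n : ℝ) ^ k := by ring
    rw [h6]
    linarith
  have hpow : (n : ℝ) ^ k * (n : ℝ) ^ (m₀ - k) = (n : ℝ) ^ m₀ := by
    rw [← pow_add]; congr 1; omega
  have hsum : (m₀.choose k : ℝ) * ((c + δ / 2) * (n : ℝ) ^ m₀) ≤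
      ∑ φ : Fin m₀ → Fin n, ((pull k G φ).card : ℝ) := by
    have h1 := sum_pull (m₀ := m₀) G hG
    have h2 : (m₀.choose k : ℝ) * ((G.card : ℝ) * ((k.factorial : ℝ) * (n : ℝ) ^ (m₀ - k))) ≤
        ∑ φ : Fin m₀ → Fin n, ((pull k G φ).card : ℝ) := by exact_mod_cast h1
    refine le_trans ?_ h2
    refine mul_le_mul_of_nonneg_left ?_ hC0.le
    have h3 := mul_le_mul_of_nonneg_right hdens (by positivity : 0 ≤ (n : ℝ) ^ (m₀ - k))
    rw [mul_assoc, hpow] at h3
    linarith
  -- good maps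
  set Gd := (univ : Finset (Fin m₀ → Fin n)).filter
    (fun φ => c * (m₀.choose k : ℝ) ≤ ((pull k G φ).card : ℝ)) with hGd
  have hGdc : δ / 2 * (n : ℝ) ^ m₀ ≤ Gd.card := by
    have h1 : ∀ φ ∈ (univ : Finset (Fin m₀ → Fin n)), ((pull k G φ).card : ℝ) ≤
        (if φ ∈ Gd then (m₀.choose k : ℝ) else 0) + c * (m₀.choose k : ℝ) := by
      intro φ _
      by_cases hφ : φ ∈ Gd
      · rw [if_pos hφ]
        have h2 : (pull k G φ).card ≤ m₀.choose k := by
          refine card_le_choose fun A hA => ?_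
          exact (mem_powersetCard.1 (mem_filter.1 hA).1).2
        have h3 : ((pull k G φ).card : ℝ) ≤ (m₀.choose k : ℝ) := by exact_mod_cast h2
        have h4 : 0 ≤ c * (m₀.choose k : ℝ) := by positivity
        linarith
      · rw [if_neg hφ]
        rw [hGd, mem_filter, not_and] at hφ
        have := hφ (mem_univ _)
        push Not at this
        linarith
    have h2 := Finset.sum_le_sum h1
    rw [Finset.sum_add_distrib, Finset.sum_const, Finset.sum_ite_mem, Finset.univ_inter,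
      Finset.sum_const, card_univ, Fintype.card_fun, Fintype.card_fin, Fintype.card_fin,
      nsmul_eq_mul, nsmul_eq_mul] at h2
    push_cast at h2
    have h3 := hsum.trans h2
    have h4 : (m₀.choose k : ℝ) * (δ / 2 * (n : ℝ) ^ m₀) ≤ (m₀.choose k : ℝ) * (Gd.card : ℝ) := by
      linarith
    exact le_of_mul_le_mul_left h4 hC0
  -- pigeonhole
  obtain ⟨H₀, hH₀⟩ : ∃ H₀ : Finset (Finset (Fin m₀)), c' * (n : ℝ) ^ m₀ ≤
      ((Gd.filter (fun φ => pull k G φ = H₀)).card : ℝ) := by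
    by_contra hcon
    push Not at hcon
    have h1 : (Gd.card : ℝ) = ∑ H₀ : Finset (Finset (Fin m₀)),
        ((Gd.filter (fun φ => pull k G φ = H₀)).card : ℝ) := by
      have := Finset.card_eq_sum_card_fiberwise (s := Gd) (t := univ)
        (f := fun φ => pull k G φ) (fun φ _ => mem_coe.2 (mem_univ _))
      exact_mod_cast this
    have h2 : (Gd.card : ℝ) < ∑ _H₀ : Finset (Finset (Fin m₀)), c' * (n : ℝ) ^ m₀ := by
      rw [h1]
      exact Finset.sum_lt_sum_of_nonempty univ_nonempty fun H₀ _ => hcon H₀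
    rw [Finset.sum_const, card_univ, nsmul_eq_mul, ← hR] at h2
    have h3 : R * (c' * (n : ℝ) ^ m₀) = δ / 2 * (n : ℝ) ^ m₀ := by
      rw [hc']; field_simp
    rw [h3] at h2
    linarith
  set Wd := Gd.filter (fun φ => pull k G φ = H₀) with hWd
  have hWdpos : 0 < Wd.card := by
    have h1 : (0 : ℝ) < c' * (n : ℝ) ^ m₀ := by positivity
    have h2 : (0 : ℝ) < (Wd.card : ℝ) := lt_of_lt_of_le h1 hH₀
    exact_mod_cast h2
  obtain ⟨φ₀, hφ₀⟩ := Finset.card_pos.1 hWdpos
  have hφ₀' := mem_filter.1 hφ₀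
  have hH₀k : ∀ e ∈ H₀, e.card = k := by
    intro e he
    rw [← hφ₀'.2] at he
    exact (mem_powersetCard.1 (mem_filter.1 he).1).2
  have hH₀c : c * (m₀.choose k : ℝ) ≤ H₀.card := by
    rw [← hφ₀'.2]
    exact (mem_filter.1 hφ₀'.1).2
  obtain ⟨ψ, hψ⟩ := hhom H₀ hH₀k hH₀c
  -- boxes
  have : Nonempty (Fin m) := ⟨⟨0, hm⟩⟩
  have hVc : 0 < (univ : Finset (Fin n)).card := by
    rw [card_univ, Fintype.card_fin]; omega
  have hbox := Pool.Agent.H362R2.CM.box_count (ι := Fin m) (univ : Finset (Fin n)) hVc m₀ Wd c'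
    hc'0.le (fun _ _ _ => mem_univ _) (by
      rw [card_univ, Fintype.card_fin]; exact hH₀)
  rw [card_univ, Fintype.card_fin, Fintype.card_fin, ← hc''] at hbox
  set Bx := Pool.Agent.H362R2.CM.boxes (univ : Finset (Fin n)) (Fin m) Wd with hBx
  -- a box with distinct representatives
  obtain ⟨A, hA, hAinj⟩ : ∃ A ∈ Bx, Function.Injective (fun v : Fin m => A (ψ v) v) := by
    by_contra hcon
    push Not at hcon
    have h1 : Bx ⊆ ((univ : Finset (Fin m)).offDiag).biUnion (fun p =>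
        (univ : Finset (Fin m₀ → Fin m → Fin n)).filter
          (fun A => A (ψ p.1) p.1 = A (ψ p.2) p.2)) := by
      intro A hA
      have h2 := hcon A hA
      rw [Function.Injective] at h2
      push Not at h2
      obtain ⟨v, w, hvw, hne⟩ := h2
      rw [mem_biUnion]
      exact ⟨(v, w), by simp [hne], by simp [hvw]⟩
    have h2 := (Finset.card_le_card h1).trans Finset.card_biUnion_le
    have h3 : Bx.card * n ≤ m ^ 2 * n ^ (m₀ * m) := by
      refine (Nat.mul_le_mul_right n h2).trans ?_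
      rw [Finset.sum_mul]
      have h4 : ∀ p ∈ (univ : Finset (Fin m)).offDiag,
          ((univ : Finset (Fin m₀ → Fin m → Fin n)).filter
          (fun A => A (ψ p.1) p.1 = A (ψ p.2) p.2)).card * n ≤ n ^ (m₀ * m) := by
        intro p hp
        apply coincidence
        intro heq
        exact (mem_offDiag.1 hp).2.2 (congrArg Prod.snd heq)
      refine (Finset.sum_le_sum h4).trans ?_
      rw [Finset.sum_const, smul_eq_mul]
      refine Nat.mul_le_mul_right _ ?_
      rw [Finset.offDiag_card, card_univ, Fintype.card_fin, sq]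
      exact Nat.sub_le _ _
    have h5 : (Bx.card : ℝ) * n ≤ (m : ℝ) ^ 2 * (n : ℝ) ^ (m₀ * m) := by exact_mod_cast h3
    have h6 := mul_le_mul_of_nonneg_right hbox hn0.le
    have h7 : (c'' * n) * (n : ℝ) ^ (m₀ * m) ≤ (m : ℝ) ^ 2 * (n : ℝ) ^ (m₀ * m) := by
      linarith
    have h8 : (0 : ℝ) < (n : ℝ) ^ (m₀ * m) := by positivity
    have h9 := le_of_mul_le_mul_right h7 h8
    have h10 : (n₂ : ℝ) ≤ n := by exact_mod_cast hnn₂
    have h11 : (m : ℝ) ^ 2 / c'' < n := lt_of_lt_of_le hn₂ h10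
    rw [div_lt_iff₀ hc''0] at h11
    linarith
  exact copy_of_box hm hF hH₀k hψ (fun φ hφ => (mem_filter.1 hφ).2) hA hAinj

theorem upper_density {k m₀ m : ℕ} (hkm : k ≤ m₀) (hm : 0 < m) (c δ : ℝ) (hc : 0 ≤ c)
    (hδ : 0 < δ) (F : Finset (Finset (Fin m))) (hF : ∀ e ∈ F, e.card = k)
    (hhom : ∀ H₀ : Finset (Finset (Fin m₀)), (∀ e ∈ H₀, e.card = k) →
      c * (m₀.choose k : ℝ) ≤ H₀.card → ∃ ψ : Fin m → Fin m₀, ∀ e ∈ F, e.image ψ ∈ H₀)
    {d : ℝ} (hd : Filter.Tendsto (fun n : ℕ => (exn k m F n : ℝ) / (n.choose k : ℝ)) Filter.atTop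
      (nhds d)) : d ≤ c + δ := by
  obtain ⟨n₀, hn₀⟩ := upper hkm hm c δ hc hδ F hF hhom
  refine le_of_tendsto hd ?_
  rw [Filter.eventually_atTop]
  refine ⟨max n₀ k, fun n hn => ?_⟩
  have h1 : (0 : ℝ) < (n.choose k : ℝ) := by
    exact_mod_cast Nat.choose_pos (le_trans (le_max_right _ _) hn)
  rw [div_le_iff₀ h1]
  rcases exn_cases k m F n with h0 | ⟨H, h2, h3, h4⟩
  · rw [h0]
    have : 0 ≤ c + δ := by linarith
    simp only [Nat.cast_zero]
    positivity
  · rw [← h3]
    by_contra hcon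
    push Not at hcon
    exact h4 (hn₀ n (le_trans (le_max_left _ _) hn) H h2 hcon.le)

end Run7.h42.WO
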